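import Pool.Agent.H904.SF.Main

/-! # Closed families of invariant surfaces: the theorem in terms of the elementary definitions -/

set_option autoImplicit false
set_option linter.unusedSectionVars false

open scoped Topology ContDiff Manifold
open Set Filter Bundle Pool.Agent.Helper186 Pool.Agent.H826R2 Pool.Agent.H826R2.WStmt

noncomputable section

namespace Pool.Agent.H904.SF

universe u u' v v' w

section

variable {E : Type u} [NormedAddCommGroup E] [NormedSpace ℝ E]
  {M : Type v} [TopologicalSpace M] [ChartedSpace E M] [IsManifold 𝓘(ℝ, E) ∞ M]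

/-- a smooth vector field -/
def SmoothField (X : M → E) : Prop :=
  ContMDiff 𝓘(ℝ, E) 𝓘(ℝ, E).tangent ∞
    (fun x => (⟨x, (X x : TangentSpace 𝓘(ℝ, E) x)⟩ : TangentBundle 𝓘(ℝ, E) M))

end

section

variable {E : Type u} [NormedAddCommGroup E] [NormedSpace ℝ E]
  {M : Type v} [TopologicalSpace M] [ChartedSpace E M]
  {E' : Type u'} [NormedAddCommGroup E'] [NormedSpace ℝ E']
  {P : Type v'} [TopologicalSpace P] [ChartedSpace E' P] [IsManifold 𝓘(ℝ, E') ∞ P]
  [IsManifold 𝓘(ℝ, E) ∞ M]
  {W : Type w} [NormedAddCommGroup W] [InnerProductSpace ℝ W]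

/-- **A family of surfaces of `M` which are tangent to the field `R`**: a manifold `P`, a smooth map
`q : P → M` and a smooth map `f : P → W` to a Euclidean space, whose level sets are surfaces; the members
of the family are the images under `q` of the level sets of `f`. The field `RP` is a lift of `R` to `P`,
the tangent spaces of the level sets are spanned by `RP` and a field `Z`, and the family moves: the
one-form `q^*dα (Z, ·)` has no zero. -/
structure SurfaceFamily (α : M → Cov E) (R : M → E) (q : P → M) (RP Z : P → E') (f : P → W) :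
    Prop where
  smooth_q : ContMDiff 𝓘(ℝ, E') 𝓘(ℝ, E) ∞ q
  smooth_f : ContMDiff 𝓘(ℝ, E') 𝓘(ℝ, W) ∞ f
  smooth_RP : SmoothField RP
  smooth_Z : SmoothField Z
  lift : ∀ p, D (E := E') (E' := E) q p (RP p) = R (q p)
  surfaces : ∀ (p : P) (u : E'), D (E := E') (E' := W) f p u = 0 ↔
    ∃ s t : ℝ, u = s • RP p + t • Z p
  moves : ∀ p : P, ∃ u : E', WStmt.extDer α (q p)
    (D (E := E') (E' := E) q p (Z p)) (D (E := E') (E' := E) q p u) ≠ 0

end

variable {E : Type u} [NormedAddCommGroup E] [NormedSpace ℝ E] [FiniteDimensional ℝ E]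
  {M : Type v} [TopologicalSpace M] [ChartedSpace E M] [IsManifold 𝓘(ℝ, E) ∞ M]
  {E' : Type u'} [NormedAddCommGroup E'] [NormedSpace ℝ E'] [FiniteDimensional ℝ E']
  {P : Type v'} [TopologicalSpace P] [ChartedSpace E' P] [IsManifold 𝓘(ℝ, E') ∞ P]
  {W : Type w} [NormedAddCommGroup W] [InnerProductSpace ℝ W] [FiniteDimensional ℝ W]

theorem infinitely_many [T2Space M] [T2Space P] [CompactSpace P] [Nonempty P]
    {α : M → Cov E} (hα : WStmt.SmoothForm α) {R : M → E} (hR : WStmt.IsReeb α R)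
    (hc : WStmt.IsContact α ∨ SmoothField R)
    {q : P → M} {RP Z : P → E'} {f : P → W} (h : SurfaceFamily α R q RP Z f) :
    {w : W | ∃ T : ℝ, ¬ {O : Set M | (∃ c : ℝ → M, IsPeriodicOrbit R c T ∧ O = range c) ∧
      O ⊆ q '' (f ⁻¹' {w})}.Countable}.Infinite := by
  have hRs : SmoothField R := by
    rcases hc with hc | hc
    · exact Pool.Agent.N287.WF.smooth_R (β := toForm α)
        (R := fun x => (R x : TangentSpace 𝓘(ℝ, E) x)) ⟨hc.toWein, hR.toWein⟩
    · exact hc
  have hF : Fam (toForm α) (fun x => (R x : TangentSpace 𝓘(ℝ, E) x)) q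
      (fun p => (RP p : TangentSpace 𝓘(ℝ, E') p)) (fun p => (Z p : TangentSpace 𝓘(ℝ, E') p)) f :=
    ⟨⟨hα, hRs, hR.unit, fun x v => hR.kernel x v⟩, h.smooth_q, h.smooth_RP, h.lift, h.smooth_f,
      h.smooth_Z, h.surfaces, h.moves⟩
  refine (main hF).mono ?_
  rintro w ⟨T, hT, h1⟩
  refine ⟨T, fun h2 => h1 (h2.mono ?_)⟩
  rintro O ⟨⟨c, hc1, hc2, hc3⟩, hO⟩
  exact ⟨⟨c, ⟨hT, hc1, hc2⟩, hc3⟩, hO⟩

end Pool.Agent.H904.SF
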