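import Pool.Agent.H904.SF.Asm

/-! # Closed orbits in infinitely many surfaces -/

set_option autoImplicit false
set_option linter.unusedSectionVars false

open scoped Topology ContDiff Manifold
open Set Filter Bundle Pool.Agent.Helper186 Pool.Agent.H826R2

noncomputable section

namespace Pool.Agent.H904.SF

open Pool.Agent.N287.WF (DW Fl2 act LocProp det2)

universe u v w

variable {E : Type u} [NormedAddCommGroup E] [NormedSpace ℝ E] [FiniteDimensional ℝ E]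
  {M : Type v} [TopologicalSpace M] [ChartedSpace E M] [IsManifold 𝓘(ℝ, E) ∞ M]
  {W : Type w} [NormedAddCommGroup W] [InnerProductSpace ℝ W] [FiniteDimensional ℝ W]
  {f : M → W} {φ ψ : M → ℝ → M}

/-- recurrence of the second flow: there is an element of the stabiliser with nonzero second
coordinate -/
lemma second [CompactSpace M] (h0 : ∀ x, act φ ψ 0 x = x)
    (hadd : ∀ γ γ' x, act φ ψ (γ + γ') x = act φ ψ γ (act φ ψ γ' x))
    (hf : ∀ γ x, f (act φ ψ γ x) = f x) (hloc : LocProp E f φ ψ) (x : M) :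
    ∃ g : ℝ × ℝ, act φ ψ g x = x ∧ g.2 ≠ 0 := by
  obtain ⟨y, hy⟩ : ∃ y, MapClusterPt y atTop (fun k : ℕ => act φ ψ (0, (k : ℝ)) x) := by
    obtain ⟨y, -, hy⟩ := (isCompact_univ : IsCompact (Set.univ : Set M)).exists_mapClusterPt
      (f := atTop) (u := fun k : ℕ => act φ ψ (0, (k : ℝ)) x) (by simp)
    exact ⟨y, hy⟩
  obtain ⟨U, hU, hyU, τ, hτs, hτ0, hτ, -⟩ := hloc y
  have hτc : ContinuousAt τ y := hτs.continuousOn.continuousAt (hU.mem_nhds hyU)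
  have hnb : {z | z ∈ U ∧ ‖τ z‖ < 1 / 4} ∈ 𝓝 y := by
    have h1 : ∀ᶠ z in 𝓝 y, ‖τ z‖ < 1 / 4 := by
      have h3 : ‖τ y‖ < 1 / 4 := by rw [hτ0, norm_zero]; norm_num
      exact hτc.norm.eventually_lt_const h3
    filter_upwards [hU.mem_nhds hyU, h1] with z hz1 hz2
    exact ⟨hz1, hz2⟩
  have hfr := mapClusterPt_iff_frequently.mp hy _ hnb
  rw [Filter.frequently_atTop] at hfr
  obtain ⟨k, -, hk1, hk2⟩ := hfr 0
  obtain ⟨l, hl, hl1, hl2⟩ := hfr (k + 1)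
  obtain ⟨p, hp⟩ : ∃ p, p = τ (act φ ψ (0, (k : ℝ)) x) := ⟨_, rfl⟩
  obtain ⟨q, hq⟩ : ∃ q, q = τ (act φ ψ (0, (l : ℝ)) x) := ⟨_, rfl⟩
  have h1 := hτ _ hk1 _ hl1 (by rw [hf, hf])
  rw [← hp, ← hq] at h1
  rw [← hp] at hk2
  rw [← hq] at hl2
  refine ⟨-((0 : ℝ), (k : ℝ)) + ((p - q) + ((0 : ℝ), (l : ℝ))), ?_, ?_⟩
  · rw [hadd, hadd (p - q), h1, ← hadd, neg_add_cancel, h0]
  · have hlk : (k : ℝ) + 1 ≤ l := by exact_mod_cast hl
    have e1 : (-((0 : ℝ), (k : ℝ)) + ((p - q) + ((0 : ℝ), (l : ℝ)))).2 =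
        (l : ℝ) - k + (p.2 - q.2) := by
      simp; ring
    rw [e1]
    have b1 : |p.2| ≤ ‖p‖ := norm_snd_le p
    have b3 : |q.2| ≤ ‖q‖ := norm_snd_le q
    have c1 := abs_le.mp b1
    have c3 := abs_le.mp b3
    intro h
    linarith [c1.1, c1.2, c3.1, c3.2]

/-- **Closed orbits in infinitely many level sets.** -/
theorem many [T2Space M] [CompactSpace M] [Nonempty M]
    {β : (x : M) → TangentSpace 𝓘(ℝ, E) x →L[ℝ] ℝ} {R : (x : M) → TangentSpace 𝓘(ℝ, E) x}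
    {Z : (x : M) → TangentSpace 𝓘(ℝ, E) x} (h : Fib β R f Z) :
    ∃ (Y : (x : M) → TangentSpace 𝓘(ℝ, E) x) (a : M → W) (φ ψ : M → ℝ → M), Nrm β R f Y a ∧
      Fl2 R Y φ ψ ∧
      ContMDiff (𝓘(ℝ, ℝ × ℝ).prod 𝓘(ℝ, E)) 𝓘(ℝ, E) ∞
        (fun p : (ℝ × ℝ) × M => act φ ψ p.1 p.2) ∧
      (∀ γ x, f (act φ ψ γ x) = f x) ∧
      {w : W | ∃ (x : M) (t : ℝ), 0 < t ∧ φ x t = x ∧ f x = w}.Infinite := by
  obtain ⟨Y, a, φ, ψ, hY, hfl, hsm, hf, x₀, t₀, ht₀, hx₀⟩ := exists_periodic_aux h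
  refine ⟨Y, a, φ, ψ, hY, hfl, hsm, hf, fun hfin => ?_⟩
  obtain ⟨-, h0, hadd, -⟩ := actProp hY hfl
  have hloc := loc hY hfl hsm h0 hadd hf
  obtain ⟨hsel, hdisc⟩ := Pool.Agent.N700.WF.sel E M W f φ ψ hsm h0 hadd hf hloc
  obtain ⟨ε, hε, hd⟩ := hdisc ‹_›
  have hφ : ∀ x t, act φ ψ (t, 0) x = φ x t := fun x t => by
    show φ (ψ x 0) t = φ x t
    rw [hfl.ψ0]
  -- a periodic point from an element of the stabiliser
  have hclosed : ∀ (x : M) (t : ℝ), act φ ψ (t, 0) x = x → t ≠ 0 →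
      f x ∈ {w : W | ∃ (x : M) (t : ℝ), 0 < t ∧ φ x t = x ∧ f x = w} := by
    intro x t ht hne
    rcases lt_or_gt_of_ne hne with h1 | h1
    · refine ⟨x, -t, by linarith, ?_, rfl⟩
      rw [← hφ]
      have h2 : act φ ψ ((-t, 0) + (t, 0)) x = x := by
        rw [show (((-t, 0) : ℝ × ℝ) + (t, 0)) = 0 by ext <;> simp]
        exact h0 x
      rw [hadd, ht] at h2
      exact h2
    · exact ⟨x, t, h1, by rw [← hφ]; exact ht, rfl⟩
  -- two selections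
  obtain ⟨g₁, e₁, s₁⟩ := hsel x₀ (t₀, 0) (by rw [hφ]; exact hx₀)
  obtain ⟨b, hb, hb2⟩ := second (E := E) h0 hadd hf hloc x₀
  obtain ⟨g₂, e₂, s₂⟩ := hsel x₀ b hb
  obtain ⟨U, hU, hxU, τ, -, -, hτ, -⟩ := hloc x₀
  have c₁ : ContinuousAt g₁ x₀ := (s₁.self_of_nhds).1.continuousAt
  have c₂ : ContinuousAt g₂ x₀ := (s₂.self_of_nhds).1.continuousAt
  have n₁ : ∀ᶠ x in 𝓝 x₀, ‖g₁ x - g₁ x₀‖ < ε / 2 := by
    have h1 : ContinuousAt (fun x => ‖g₁ x - g₁ x₀‖) x₀ := (c₁.sub continuousAt_const).norm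
    refine h1.eventually_lt_const ?_
    show ‖g₁ x₀ - g₁ x₀‖ < ε / 2
    rw [sub_self, norm_zero]
    positivity
  have n₂ : ∀ᶠ x in 𝓝 x₀, ‖g₂ x - g₂ x₀‖ < ε / 2 := by
    have h1 : ContinuousAt (fun x => ‖g₂ x - g₂ x₀‖) x₀ := (c₂.sub continuousAt_const).norm
    refine h1.eventually_lt_const ?_
    show ‖g₂ x₀ - g₂ x₀‖ < ε / 2
    rw [sub_self, norm_zero]
    positivity
  have d₂ : ∀ᶠ x in 𝓝 x₀, (g₂ x).2 ≠ 0 :=
    (continuous_snd.continuousAt.comp c₂).eventually_ne (by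
      show (g₂ x₀).2 ≠ 0
      rw [e₂]
      exact hb2)
  have d₁ : ∀ᶠ x in 𝓝 x₀, det2 (g₁ x) (g₂ x) ≠ 0 := by
    have h1 : ContinuousAt (fun x => det2 (g₁ x) (g₂ x)) x₀ := by
      unfold det2
      exact ((continuous_fst.continuousAt.comp c₁).mul (continuous_snd.continuousAt.comp c₂)).sub
        ((continuous_snd.continuousAt.comp c₁).mul (continuous_fst.continuousAt.comp c₂))
    refine h1.eventually_ne ?_
    show det2 (g₁ x₀) (g₂ x₀) ≠ 0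
    rw [e₁, e₂]
    unfold det2
    rw [zero_mul, sub_zero]
    exact mul_ne_zero ht₀.ne' hb2
  have : LocallyConnectedSpace M := ChartedSpace.locallyConnectedSpace E M
  have hall := (((s₁.and s₂).and (n₁.and n₂)).and (d₁.and d₂)).and (hU.mem_nhds hxU)
  obtain ⟨V, hVs, hVo, hxV, hVc⟩ := locallyConnectedSpace_iff_subsets_isOpen_isConnected.1
    inferInstance x₀ _ hall
  have hV1 : ∀ x ∈ V, ContinuousAt g₁ x ∧ act φ ψ (g₁ x) x = x := fun x hx =>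
    ⟨(hVs hx).1.1.1.1.1.continuousAt, (hVs hx).1.1.1.1.2⟩
  have hV2 : ∀ x ∈ V, ContinuousAt g₂ x ∧ act φ ψ (g₂ x) x = x := fun x hx =>
    ⟨(hVs hx).1.1.1.2.1.continuousAt, (hVs hx).1.1.1.2.2⟩
  have hV3 : ∀ x ∈ V, ‖g₁ x - g₁ x₀‖ < ε / 2 ∧ ‖g₂ x - g₂ x₀‖ < ε / 2 := fun x hx =>
    (hVs hx).1.1.2
  have hV4 : ∀ x ∈ V, det2 (g₁ x) (g₂ x) ≠ 0 ∧ (g₂ x).2 ≠ 0 := fun x hx => (hVs hx).1.2
  have hV5 : ∀ x ∈ V, x ∈ U := fun x hx => (hVs hx).2
  -- the ratio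
  set ρ : M → ℝ := fun x => (g₁ x).2 / (g₂ x).2 with hρ
  have hρc : ContinuousOn ρ V := by
    intro y hy
    exact ((continuous_snd.continuousAt.comp (hV1 y hy).1).div
      (continuous_snd.continuousAt.comp (hV2 y hy).1) (hV4 y hy).2).continuousWithinAt
  -- rational ratios give closed orbits
  have hrat : ∀ x ∈ V, ∀ r : ℚ, ρ x = r →
      f x ∈ {w : W | ∃ (x : M) (t : ℝ), 0 < t ∧ φ x t = x ∧ f x = w} := by
    intro x hx r hr
    have hq0 : (r.den : ℝ) ≠ 0 := by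
      have := r.den_ne_zero
      exact_mod_cast this
    have e3 : (r.den : ℝ) * (g₁ x).2 = r.num * (g₂ x).2 := by
      have h2 : (g₁ x).2 / (g₂ x).2 = r := hr
      have h3 : (r : ℝ) = r.num / r.den := by
        exact_mod_cast (Rat.num_div_den r).symm
      rw [h3, div_eq_div_iff (hV4 x hx).2 hq0] at h2
      linarith
    have hz : ∀ (m : ℤ) (g : ℝ × ℝ), (m • g).1 = m * g.1 ∧ (m • g).2 = m * g.2 := by
      intro m g
      rw [Prod.smul_fst, Prod.smul_snd, zsmul_eq_mul, zsmul_eq_mul]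
      exact ⟨rfl, rfl⟩
    have h4 := Pool.Agent.N79.WF.act_zsmul h0 hadd (hV1 x hx).2 (r.den : ℤ)
    have h5 := Pool.Agent.N79.WF.act_zsmul h0 hadd (hV2 x hx).2 (-r.num)
    have h6 : act φ ψ ((r.den : ℤ) • g₁ x + (-r.num) • g₂ x) x = x := by
      rw [hadd, h5, h4]
    have h7 : (r.den : ℤ) • g₁ x + (-r.num) • g₂ x =
        ((r.den : ℝ) * (g₁ x).1 - r.num * (g₂ x).1, 0) := by
      ext
      · rw [Prod.fst_add, (hz _ _).1, (hz _ _).1]
        push_cast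
        ring
      · rw [Prod.snd_add, (hz _ _).2, (hz _ _).2]
        push_cast
        linarith
    rw [h7] at h6
    refine hclosed x _ h6 fun h8 => (hV4 x hx).1 ?_
    unfold det2
    have h9 : (r.den : ℝ) * ((g₁ x).1 * (g₂ x).2 - (g₁ x).2 * (g₂ x).1) = 0 := by
      have h10 : (r.den : ℝ) * (g₁ x).1 = r.num * (g₂ x).1 := by linarith
      calc (r.den : ℝ) * ((g₁ x).1 * (g₂ x).2 - (g₁ x).2 * (g₂ x).1) =
          (r.den * (g₁ x).1) * (g₂ x).2 - (r.den * (g₁ x).2) * (g₂ x).1 := by ring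
        _ = 0 := by rw [h10, e3]; ring
    exact (mul_eq_zero.1 h9).resolve_left hq0
  -- the ratio is constant on the level sets in `V`
  have hρf : ∀ x ∈ V, ∀ y ∈ V, f x = f y → ρ x = ρ y := by
    intro x hx y hy hxy
    have h1 := hτ x (hV5 x hx) y (hV5 y hy) hxy
    have hcomm : ∀ γ, act φ ψ γ y = y → act φ ψ γ x = x := by
      intro γ hγ
      rw [← h1, ← hadd, add_comm, hadd, hγ]
    have hsub : ∀ g g' : ℝ × ℝ, act φ ψ g x = x → act φ ψ g' x = x → act φ ψ (g - g') x = x := by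
      intro g g' hg hg'
      have h2 := Pool.Agent.N79.WF.act_zsmul h0 hadd hg' (-1)
      rw [sub_eq_add_neg, hadd]
      have h3 : (-1 : ℤ) • g' = -g' := by simp
      rw [h3] at h2
      rw [h2, hg]
    have k1 : g₁ x = g₁ y := by
      refine sub_eq_zero.1 (hd x _ (hsub _ _ (hV1 x hx).2 (hcomm _ (hV1 y hy).2)) ?_)
      have h2 : g₁ x - g₁ y = (g₁ x - g₁ x₀) - (g₁ y - g₁ x₀) := by abel
      rw [h2]
      calc ‖(g₁ x - g₁ x₀) - (g₁ y - g₁ x₀)‖ ≤ ‖g₁ x - g₁ x₀‖ + ‖g₁ y - g₁ x₀‖ := norm_sub_le _ _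
        _ < ε := by linarith [(hV3 x hx).1, (hV3 y hy).1]
    have k2 : g₂ x = g₂ y := by
      refine sub_eq_zero.1 (hd x _ (hsub _ _ (hV2 x hx).2 (hcomm _ (hV2 y hy).2)) ?_)
      have h2 : g₂ x - g₂ y = (g₂ x - g₂ x₀) - (g₂ y - g₂ x₀) := by abel
      rw [h2]
      calc ‖(g₂ x - g₂ x₀) - (g₂ y - g₂ x₀)‖ ≤ ‖g₂ x - g₂ x₀‖ + ‖g₂ y - g₂ x₀‖ := norm_sub_le _ _
        _ < ε := by linarith [(hV3 x hx).2, (hV3 y hy).2]
    show (g₁ x).2 / (g₂ x).2 = (g₁ y).2 / (g₂ y).2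
    rw [k1, k2]
  have hρ0 : ρ x₀ = 0 := by
    show (g₁ x₀).2 / (g₂ x₀).2 = 0
    rw [e₁]
    simp
  by_cases hconst : ∀ x ∈ V, ρ x = 0
  · -- all surfaces near the given one contain closed orbits
    set k : M → ℝ := fun x => inner ℝ (a x₀) (f x) with hk
    have hkc : ContinuousOn k V := (continuous_const.inner hY.smoothf.continuous).continuousOn
    have hsub : k '' V ⊆ (fun w => inner ℝ (a x₀) w) ''
        {w : W | ∃ (x : M) (t : ℝ), 0 < t ∧ φ x t = x ∧ f x = w} := by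
      rintro _ ⟨x, hx, rfl⟩
      exact ⟨f x, hrat x hx 0 (by rw [hconst x hx]; simp), rfl⟩
    have hfin2 : (k '' V).Finite := (hfin.image _).subset hsub
    have hpre : IsPreconnected (k '' V) := hVc.isPreconnected.image _ hkc
    have hkk : ∀ x ∈ V, k x = k x₀ := by
      intro x hx
      by_contra hne
      have h1 : (uIcc (k x) (k x₀)) ⊆ k '' V :=
        hpre.ordConnected.uIcc_subset (mem_image_of_mem _ hx) (mem_image_of_mem _ hxV)
      rcases lt_or_gt_of_ne hne with h2 | h2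
      · exact ((Icc_infinite h2).mono (by rw [← uIcc_of_le h2.le]; exact h1)) hfin2
      · exact ((Icc_infinite h2).mono (by rw [← uIcc_of_ge h2.le]; exact h1)) hfin2
    -- the derivative of `k` vanishes
    have hkd : HasMFDerivAt 𝓘(ℝ, E) 𝓘(ℝ, ℝ) k x₀
        ((innerSL ℝ (a x₀)).comp (DW f x₀ : E →L[ℝ] W)) :=
      HasMFDerivAt.comp x₀ (g := fun w : W => (innerSL ℝ (a x₀)) w) (f := f)
        (innerSL ℝ (a x₀)).hasFDerivAt.hasMFDerivAt
        ((hY.smoothf x₀).mdifferentiableAt (by simp)).hasMFDerivAt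
    have hkd0 : HasMFDerivAt 𝓘(ℝ, E) 𝓘(ℝ, ℝ) k x₀ (0 : E →L[ℝ] ℝ) := by
      have h1 : HasMFDerivAt 𝓘(ℝ, E) 𝓘(ℝ, ℝ) (fun _ : M => k x₀) x₀ (0 : E →L[ℝ] ℝ) :=
        hasMFDerivAt_const _ _
      refine h1.congr_of_eventuallyEq ?_
      filter_upwards [hVo.mem_nhds hxV] with x hx
      exact hkk x hx
    obtain ⟨u, hu⟩ := hY.mem x₀
    have h1 := hasMFDerivAt_unique hkd hkd0
    have h2 : (inner ℝ (a x₀) (DW f x₀ u) : ℝ) = 0 := DFunLike.congr_fun h1 u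
    rw [hu, real_inner_self_eq_norm_sq, hY.unit] at h2
    norm_num at h2
  · push Not at hconst
    obtain ⟨x₁, hx₁, hne⟩ := hconst
    have hpre : IsPreconnected (ρ '' V) := hVc.isPreconnected.image _ hρc
    have h1 : uIcc (ρ x₁) (ρ x₀) ⊆ ρ '' V :=
      hpre.ordConnected.uIcc_subset (mem_image_of_mem _ hx₁) (mem_image_of_mem _ hxV)
    rw [hρ0] at h1
    -- infinitely many rational values
    have h2 : {r : ℚ | (r : ℝ) ∈ uIcc (ρ x₁) 0}.Infinite := by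
      intro hfin3
      have h3 : ∀ x y : ℝ, x < y → {r : ℚ | (r : ℝ) ∈ Icc x y}.Infinite := by
        intro x y hxy
        obtain ⟨r₁, hr1, hr2⟩ := exists_rat_btwn hxy
        obtain ⟨r₂, hr3, hr4⟩ := exists_rat_btwn hr2
        have h4 : r₁ < r₂ := by exact_mod_cast hr3
        refine (Icc_infinite h4).mono ?_
        intro r hr
        have h5 : (r₁ : ℝ) ≤ r := by exact_mod_cast hr.1
        have h6 : (r : ℝ) ≤ r₂ := by exact_mod_cast hr.2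
        exact ⟨by linarith, by linarith⟩
      rcases lt_or_gt_of_ne hne with h4 | h4
      · exact h3 _ _ h4 (by rw [← uIcc_of_le h4.le]; exact hfin3)
      · exact h3 _ _ h4 (by rw [← uIcc_of_ge h4.le]; exact hfin3)
    have h3 : ∀ r : ℚ, (r : ℝ) ∈ uIcc (ρ x₁) 0 → ∃ x ∈ V, ρ x = r := fun r hr => h1 hr
    choose! X hX1 hX2 using h3
    refine h2 (Set.Finite.of_finite_image (f := fun r => f (X r)) (hfin.subset ?_) ?_)
    · rintro _ ⟨r, hr, rfl⟩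
      exact hrat _ (hX1 r hr) r (hX2 r hr)
    · intro r hr r' hr' hrr
      have h4 := hρf _ (hX1 r hr) _ (hX1 r' hr') hrr
      rw [hX2 r hr, hX2 r' hr'] at h4
      exact_mod_cast h4

end Pool.Agent.H904.SF
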