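import Pool.Agent.H904.SF.Fam
import Pool.Agent.H904.SF.Many
import Pool.Graph.R_seed8.H826R2.Wein.Bridge

/-! # Uncountably many closed orbits in one surface of a closed family -/

set_option autoImplicit false
set_option linter.unusedSectionVars false

open scoped Topology ContDiff Manifold
open Set Filter Bundle Pool.Agent.Helper186 Pool.Agent.H826R2

noncomputable section

namespace Pool.Agent.H904.SF

open Pool.Agent.N287.WF (DW Fl2 act)

universe u u' v v' w

variable {E : Type u} [NormedAddCommGroup E] [NormedSpace ℝ E] [FiniteDimensional ℝ E]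
  {M : Type v} [TopologicalSpace M] [ChartedSpace E M] [IsManifold 𝓘(ℝ, E) ∞ M]
  {E' : Type u'} [NormedAddCommGroup E'] [NormedSpace ℝ E'] [FiniteDimensional ℝ E']
  {P : Type v'} [TopologicalSpace P] [ChartedSpace E' P] [IsManifold 𝓘(ℝ, E') ∞ P]
  {W : Type w} [NormedAddCommGroup W] [InnerProductSpace ℝ W] [FiniteDimensional ℝ W]
  {β : (x : M) → TangentSpace 𝓘(ℝ, E) x →L[ℝ] ℝ}
  {R : (x : M) → TangentSpace 𝓘(ℝ, E) x} {q : P → M} {RP Z : (p : P) → TangentSpace 𝓘(ℝ, E') p}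
  {f : P → W}

/-- uniqueness of integral curves -/
lemma unique_curve [T2Space M] (c : GD β R) {γ γ' : ℝ → M}
    (h : IsMIntegralCurve (I := 𝓘(ℝ, E)) γ R) (h' : IsMIntegralCurve (I := 𝓘(ℝ, E)) γ' R)
    (h0 : γ 0 = γ' 0) : γ = γ' := by
  have : IsManifold 𝓘(ℝ, E) 1 M := IsManifold.of_le (n := ∞) (by simp)
  exact isMIntegralCurve_Ioo_eq_of_contMDiff_boundaryless (t₀ := 0)
    (c.smoothR.of_le (by simp)) h h' h0

/-- a set of reals all of whose points are isolated is countable -/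
lemma countable_of_isolated {A : Set ℝ} (h : ∀ a ∈ A, ∃ δ > 0, ∀ b ∈ A, |b - a| < δ → b = a) :
    A.Countable := by
  have h2 : DiscreteTopology A := by
    rw [discreteTopology_iff_isOpen_singleton]
    rintro ⟨a, ha⟩
    obtain ⟨δ, hδ, h1⟩ := h a ha
    rw [Metric.isOpen_singleton_iff]
    refine ⟨δ, hδ, ?_⟩
    rintro ⟨b, hb⟩ hab
    have h3 : |b - a| < δ := by
      have h4 : dist b a < δ := hab
      rwa [Real.dist_eq] at h4
    exact Subtype.ext (h1 b hb h3)
  exact Set.countable_coe_iff.1 (TopologicalSpace.separableSpace_iff_countable.1 inferInstance)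

/-- a closed orbit of the lift gives uncountably many closed orbits of `R` -/
theorem uncountable_of_closed [T2Space M] [T2Space P] (h : Fam β R q RP Z f)
    {Y : (p : P) → TangentSpace 𝓘(ℝ, E') p} {a : P → W} {φ ψ : P → ℝ → P}
    (N : Nrm (pullForm 𝓘(ℝ, E) 𝓘(ℝ, E') q β) RP f Y a) (hfl : Fl2 RP Y φ ψ)
    (hsm : ContMDiff (𝓘(ℝ, ℝ × ℝ).prod 𝓘(ℝ, E')) 𝓘(ℝ, E') ∞
      (fun p : (ℝ × ℝ) × P => act φ ψ p.1 p.2)) (hfa : ∀ γ x, f (act φ ψ γ x) = f x)
    {x : P} {T : ℝ} (hT : 0 < T) (hx : φ x T = x) :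
    ¬ {O : Set M | (∃ c : ℝ → M, IsMIntegralCurve (I := 𝓘(ℝ, E)) c R ∧
        (∀ t, c (t + T) = c t) ∧ O = range c) ∧ O ⊆ q '' (f ⁻¹' {f x})}.Countable := by
  have : IsManifold 𝓘(ℝ, E') 1 P := IsManifold.of_le (n := ∞) (by simp)
  -- periodicity
  have hper : ∀ s t : ℝ, GM q φ ψ x (t + T, s) = GM q φ ψ x (t, s) := by
    intro s t
    show q (φ (ψ x s) (t + T)) = q (φ (ψ x s) t)
    rw [add_comm, flow_add h.smoothRP hfl.φ0 hfl.φint, hfl.comm, hx]
  have hperz : ∀ (s t : ℝ) (n : ℤ), GM q φ ψ x (t + n * T, s) = GM q φ ψ x (t, s) := by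
    intro s t n
    have h1 : Function.Periodic (fun t => GM q φ ψ x (t, s)) T := fun t => hper s t
    exact (h1.int_mul n) t
  -- shifting
  have hshift : ∀ s s' t t' : ℝ, GM q φ ψ x (t, s) = GM q φ ψ x (t', s') →
      ∀ r, GM q φ ψ x (t + r, s) = GM q φ ψ x (t' + r, s') := by
    intro s s' t t' hh r
    have h1 : (fun r => GM q φ ψ x (t + r, s)) = fun r => GM q φ ψ x (t' + r, s') := by
      refine unique_curve h.cd ?_ ?_ ?_
      · have h2 := (GM_int h hfl x s).comp_add t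
        refine (show (fun r => GM q φ ψ x (t + r, s)) = (fun t => GM q φ ψ x (t, s)) ∘ (· + t)
          from ?_) ▸ h2
        funext r
        show GM q φ ψ x (t + r, s) = GM q φ ψ x (r + t, s)
        rw [add_comm]
      · have h2 := (GM_int h hfl x s').comp_add t'
        refine (show (fun r => GM q φ ψ x (t' + r, s')) = (fun t => GM q φ ψ x (t, s')) ∘ (· + t')
          from ?_) ▸ h2
        funext r
        show GM q φ ψ x (t' + r, s') = GM q φ ψ x (r + t', s')
        rw [add_comm]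
      · show GM q φ ψ x (t + 0, s) = GM q φ ψ x (t' + 0, s')
        rw [add_zero, add_zero]
        exact hh
    exact congrFun h1 r
  intro hcount
  -- the orbits
  set O : ℝ → Set M := fun s => range fun t => GM q φ ψ x (t, s) with hO
  have hmem : ∀ s, O s ∈ {O : Set M | (∃ c : ℝ → M, IsMIntegralCurve (I := 𝓘(ℝ, E)) c R ∧
        (∀ t, c (t + T) = c t) ∧ O = range c) ∧ O ⊆ q '' (f ⁻¹' {f x})} := by
    intro s
    refine ⟨⟨fun t => GM q φ ψ x (t, s), GM_int h hfl x s, fun t => hper s t, rfl⟩, ?_⟩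
    rintro _ ⟨t, rfl⟩
    exact ⟨act φ ψ (t, s) x, hfa _ _, rfl⟩
  have hfib : ∀ s₀ : ℝ, {s | O s = O s₀}.Countable := by
    intro s₀
    apply countable_of_isolated
    intro b hb
    by_contra hcon
    push Not at hcon
    obtain ⟨U, hU, hbU, hinj⟩ := GM_locinj h N hfl hsm x (0, b)
    -- a sequence
    have h1 : ∀ n : ℕ, ∃ c : ℝ, O c = O b ∧ |c - b| < 1 / (n + 1) ∧ c ≠ b := by
      intro n
      obtain ⟨c, hc1, hc2, hc3⟩ := hcon (1 / (n + 1)) (by positivity)
      exact ⟨c, (show O c = O s₀ from hc1).trans (show O b = O s₀ from hb).symm, hc2, hc3⟩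
    choose c hc1 hc2 hc3 using h1
    have h2 : ∀ n, ∃ τ ∈ Icc (0 : ℝ) T, GM q φ ψ x (τ, b) = GM q φ ψ x (0, c n) := by
      intro n
      have h3 : GM q φ ψ x (0, c n) ∈ O b := by
        rw [← hc1 n]
        exact ⟨0, rfl⟩
      obtain ⟨t, ht⟩ := h3
      have ht' : GM q φ ψ x (t, b) = GM q φ ψ x (0, c n) := ht
      obtain ⟨m, hm, -⟩ := existsUnique_add_zsmul_mem_Ico hT t 0
      refine ⟨t + m • T, ⟨hm.1, by have := hm.2; linarith⟩, ?_⟩
      rw [zsmul_eq_mul, hperz, ht']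
    choose τ hτ hτe using h2
    obtain ⟨τ₀, -, k, hk, hkt⟩ := isCompact_Icc.tendsto_subseq hτ
    have hcb : Tendsto c atTop (𝓝 b) := by
      rw [Metric.tendsto_atTop]
      intro ε hε
      obtain ⟨n₀, hn₀⟩ := exists_nat_one_div_lt hε
      refine ⟨n₀, fun n hn => ?_⟩
      rw [Real.dist_eq]
      refine (hc2 n).trans (lt_of_le_of_lt ?_ hn₀)
      apply one_div_le_one_div_of_le (by positivity)
      have : (n₀ : ℝ) ≤ n := by exact_mod_cast hn
      linarith
    have hcont : Continuous (GM q φ ψ x) := (GM_smooth h hsm x).continuous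
    have hlim : GM q φ ψ x (τ₀, b) = GM q φ ψ x (0, b) := by
      have l1 : Tendsto (fun n => GM q φ ψ x (τ (k n), b)) atTop (𝓝 (GM q φ ψ x (τ₀, b))) :=
        (hcont.tendsto _).comp (hkt.prodMk_nhds tendsto_const_nhds)
      have l2 : Tendsto (fun n => GM q φ ψ x (0, c (k n))) atTop (𝓝 (GM q φ ψ x (0, b))) :=
        (hcont.tendsto _).comp (tendsto_const_nhds.prodMk_nhds (hcb.comp hk.tendsto_atTop))
      have l3 : (fun n => GM q φ ψ x (τ (k n), b)) = fun n => GM q φ ψ x (0, c (k n)) :=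
        funext fun n => hτe (k n)
      rw [l3] at l1
      exact tendsto_nhds_unique l1 l2
    have hk2 : ∀ n, GM q φ ψ x (τ (k n) - τ₀, b) = GM q φ ψ x (0, c (k n)) := by
      intro n
      have h3 := hshift b b τ₀ 0 hlim (τ (k n) - τ₀)
      rw [add_sub_cancel, zero_add] at h3
      rw [← h3, hτe]
    have l1 : Tendsto (fun n => ((τ (k n) - τ₀, b) : ℝ × ℝ)) atTop (𝓝 (0, b)) := by
      have h3 : Tendsto (fun n => τ (k n) - τ₀) atTop (𝓝 (τ₀ - τ₀)) :=
        hkt.sub tendsto_const_nhds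
      rw [sub_self] at h3
      exact h3.prodMk_nhds tendsto_const_nhds
    have l2 : Tendsto (fun n => ((0, c (k n)) : ℝ × ℝ)) atTop (𝓝 (0, b)) :=
      tendsto_const_nhds.prodMk_nhds (hcb.comp hk.tendsto_atTop)
    obtain ⟨n, hn1, hn2⟩ := ((l1.eventually_mem (hU.mem_nhds hbU)).and
      (l2.eventually_mem (hU.mem_nhds hbU))).exists
    have h3 := hinj hn1 hn2 (hk2 n)
    exact hc3 (k n) (congrArg Prod.snd h3).symm
  -- the contradiction
  have huniv : (univ : Set ℝ).Countable := by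
    have h1 : (range O).Countable := hcount.mono (by rintro _ ⟨s, rfl⟩; exact hmem s)
    have h2 : (univ : Set ℝ) = ⋃ B ∈ range O, {s | O s = B} := by
      symm
      rw [eq_univ_iff_forall]
      intro s
      exact mem_biUnion (mem_range_self s) rfl
    rw [h2]
    refine h1.biUnion ?_
    rintro _ ⟨s₀, rfl⟩
    exact hfib s₀
  exact Set.not_countable_univ huniv

/-- the main theorem, working form -/
theorem main [T2Space M] [T2Space P] [CompactSpace P] [Nonempty P] (h : Fam β R q RP Z f) :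
    {w : W | ∃ T : ℝ, 0 < T ∧
      ¬ {O : Set M | (∃ c : ℝ → M, IsMIntegralCurve (I := 𝓘(ℝ, E)) c R ∧
        (∀ t, c (t + T) = c t) ∧ O = range c) ∧ O ⊆ q '' (f ⁻¹' {w})}.Countable}.Infinite := by
  obtain ⟨Y, a, φ, ψ, N, hfl, hsm, hfa, hinf⟩ := many h.fib
  refine hinf.mono ?_
  rintro _ ⟨x, T, hT, hx, rfl⟩
  exact ⟨T, hT, uncountable_of_closed h N hfl hsm hfa hT hx⟩

end Pool.Agent.H904.SF
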