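import Pool.Agent.H904.SF.Stm
import Pool.Graph.R_pool_sql_team_seeded_63374d34.N426.WF.M1b
import Pool.Graph.R_pool_sql_team_seeded_63374d34.N674.WF.M5a
import Pool.Graph.R_pool_sql_team_seeded_63374d34.N490.WF.Flow
import Pool.Graph.R_pool_sql_team_seeded_63374d34.N75.WF.Der
import Pool.Graph.R_pool_sql_team_seeded_63374d34.N488.WF.Loc
import Pool.Graph.R_seed8.Helper186.DForms

/-!
# Invariance of the normalised field, the commuting flows, the effect on the one-form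

After the library modules WF/M1b (helper426), WF/Flow (helper490), WF/M5a (helper674), WF/Der
(helper75), with a geodesible field in place of a Reeb field.
-/

set_option autoImplicit false
set_option linter.unusedSectionVars false

open scoped Topology ContDiff Manifold
open Set Filter Bundle Pool.Agent.Helper186 Pool.Agent.H826R2

noncomputable section

namespace Pool.Agent.H904.SF

open Pool.Agent.N287.WF (DW Fl2 act)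
open Pool.Agent.N426.WF (hasDerivAt_DW)
open Pool.Agent.N674.WF (var_flow const_along)
open Pool.Agent.N490.WF (comm_flow const_flow)
open Pool.Agent.N75.WF (mfderiv_curve mfderiv_act)

universe u v w

variable {E : Type u} [NormedAddCommGroup E] [NormedSpace ℝ E] [FiniteDimensional ℝ E]
  {M : Type v} [TopologicalSpace M] [ChartedSpace E M] [IsManifold 𝓘(ℝ, E) ∞ M]
  {W : Type w} [NormedAddCommGroup W] [InnerProductSpace ℝ W] [FiniteDimensional ℝ W]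
  {β : (x : M) → TangentSpace 𝓘(ℝ, E) x →L[ℝ] ℝ} {R : (x : M) → TangentSpace 𝓘(ℝ, E) x}
  {f : M → W} {Y : (x : M) → TangentSpace 𝓘(ℝ, E) x} {a : M → W}

section

variable [T2Space M] {φ : M → ℝ → M}

lemma smooth_t (c : GD β R) (h0 : ∀ x, φ x 0 = x)
    (hφ : ∀ x, IsMIntegralCurve (I := 𝓘(ℝ, E)) (φ x) R) (t : ℝ) :
    ContMDiff 𝓘(ℝ, E) 𝓘(ℝ, E) ∞ (fun y => φ y t) := by
  have hM1 : IsManifold 𝓘(ℝ, E) 1 M := IsManifold.of_le (n := ∞) (by simp)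
  exact (contMDiff_flow c.smoothR h0 hφ).comp (contMDiff_id.prodMk contMDiff_const)

/-- the flow preserves the one-form -/
lemma strict (c : GD β R) (h0 : ∀ x, φ x 0 = x)
    (hφ : ∀ x, IsMIntegralCurve (I := 𝓘(ℝ, E)) (φ x) R) (x : M) (t : ℝ)
    (u : TangentSpace 𝓘(ℝ, E) x) :
    β (φ x t) (mfderiv 𝓘(ℝ, E) 𝓘(ℝ, E) (fun y => φ y t) x u) = β x u := by
  have h1 := var_flow c.smooth c.smoothR h0 hφ c.unit x u (m := 0)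
    (fun s => by rw [c.kernel]) t
  rw [mul_zero, add_zero] at h1
  exact h1

/-- the flow preserves the exterior derivative -/
lemma ext_strict (c : GD β R) (h0 : ∀ x, φ x 0 = x)
    (hφ : ∀ x, IsMIntegralCurve (I := 𝓘(ℝ, E)) (φ x) R) (x : M) (t : ℝ)
    (u v : TangentSpace 𝓘(ℝ, E) x) :
    extDer 𝓘(ℝ, E) β (φ x t) (mfderiv 𝓘(ℝ, E) 𝓘(ℝ, E) (fun y => φ y t) x u)
      (mfderiv 𝓘(ℝ, E) 𝓘(ℝ, E) (fun y => φ y t) x v) = extDer 𝓘(ℝ, E) β x u v := by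
  have hs := smooth_t c h0 hφ t
  have h1 := extDer_pull (J := 𝓘(ℝ, E)) (I := 𝓘(ℝ, E)) (G := fun y => φ y t) hs c.smooth x u v
  have h2 : pullForm 𝓘(ℝ, E) 𝓘(ℝ, E) (fun y => φ y t) β = β := by
    funext y
    refine ContinuousLinearMap.ext fun (w : TangentSpace 𝓘(ℝ, E) y) => ?_
    exact strict c h0 hφ y t w
  rw [h2] at h1
  exact h1.symm

/-- the derivative of the flow is surjective -/
lemma surjD (c : GD β R) (h0 : ∀ x, φ x 0 = x)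
    (hφ : ∀ x, IsMIntegralCurve (I := 𝓘(ℝ, E)) (φ x) R) (x : M) (t : ℝ)
    (w : TangentSpace 𝓘(ℝ, E) (φ x t)) :
    ∃ v : TangentSpace 𝓘(ℝ, E) x, mfderiv 𝓘(ℝ, E) 𝓘(ℝ, E) (fun y => φ y t) x v = w := by
  have hM1 : IsManifold 𝓘(ℝ, E) 1 M := IsManifold.of_le (n := ∞) (by simp)
  have hs := smooth_t c h0 hφ t
  have hs' := smooth_t c h0 hφ (-t)
  have hadd := flow_add c.smoothR h0 hφ
  have e1 : ∀ y, φ (φ y (-t)) t = y := fun y => by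
    rw [← hadd, neg_add_cancel, h0]
  have e2 : φ (φ x t) (-t) = x := by
    rw [← hadd, add_neg_cancel, h0]
  have h1 : mfderiv 𝓘(ℝ, E) 𝓘(ℝ, E) ((fun y => φ y t) ∘ fun y => φ y (-t)) (φ x t) =
      (mfderiv 𝓘(ℝ, E) 𝓘(ℝ, E) (fun y => φ y t) (φ (φ x t) (-t))).comp
      (mfderiv 𝓘(ℝ, E) 𝓘(ℝ, E) (fun y => φ y (-t)) (φ x t)) :=
    mfderiv_comp _ (hs.mdifferentiableAt (by simp)) (hs'.mdifferentiableAt (by simp))
  have h2 : ((fun y => φ y t) ∘ fun y => φ y (-t)) = id := funext e1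
  rw [h2, mfderiv_id] at h1
  have h3 : (w : E) = (mfderiv 𝓘(ℝ, E) 𝓘(ℝ, E) (fun y => φ y t) (φ (φ x t) (-t)) : E →L[ℝ] E)
      (mfderiv 𝓘(ℝ, E) 𝓘(ℝ, E) (fun y => φ y (-t)) (φ x t) w : E) :=
    DFunLike.congr_fun h1 w
  have h4 : ∀ z : M, z = x → ∀ q : E, (mfderiv 𝓘(ℝ, E) 𝓘(ℝ, E) (fun y => φ y t) z : E →L[ℝ] E) q =
      (mfderiv 𝓘(ℝ, E) 𝓘(ℝ, E) (fun y => φ y t) x : E →L[ℝ] E) q := by rintro _ rfl q; rfl
  refine ⟨(mfderiv 𝓘(ℝ, E) 𝓘(ℝ, E) (fun y => φ y (-t)) (φ x t) w : E), ?_⟩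
  exact (h4 _ e2 _).symm.trans h3.symm

end

section

variable [T2Space M] (N : Nrm β R f Y a) {φ : M → ℝ → M} (h0 : ∀ x, φ x 0 = x)
  (hφ : ∀ x, IsMIntegralCurve (I := 𝓘(ℝ, E)) (φ x) R)

include N hφ h0

lemma f_flow (x : M) (t : ℝ) : f (φ x t) = f x := by
  have hder : ∀ s, HasDerivAt (fun s => f (φ x s)) (0 : W) s := by
    intro s
    refine (hasDerivAt_DW (V := R) (hφ x s) N.smoothf).congr_deriv ?_
    exact (N.ker _ _).2 ⟨1, 0, by rw [one_smul, zero_smul, add_zero]⟩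
  have h1 := is_const_of_deriv_eq_zero (fun s => (hder s).differentiableAt)
    (fun s => (hder s).deriv) t 0
  have h2 : f (φ x t) = f (φ x 0) := h1
  rw [h2, h0]

lemma DW_flow (x : M) (t : ℝ) (u : TangentSpace 𝓘(ℝ, E) x) :
    (DW f (φ x t) (mfderiv 𝓘(ℝ, E) 𝓘(ℝ, E) (fun y => φ y t) x u) : W) = DW f x u := by
  have hs : ContMDiff 𝓘(ℝ, E) 𝓘(ℝ, E) ∞ (fun y => φ y t) := smooth_t N.cd h0 hφ t
  have h1 : mfderiv 𝓘(ℝ, E) 𝓘(ℝ, W) (f ∘ fun y => φ y t) x =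
      (mfderiv 𝓘(ℝ, E) 𝓘(ℝ, W) f (φ x t)).comp
      (mfderiv 𝓘(ℝ, E) 𝓘(ℝ, E) (fun y => φ y t) x) :=
    mfderiv_comp _ (N.smoothf.mdifferentiableAt (by simp)) (hs.mdifferentiableAt (by simp))
  have h2 : (f ∘ fun y => φ y t) = f := by
    ext1 y
    exact f_flow N h0 hφ y t
  rw [h2] at h1
  exact (DFunLike.congr_fun h1 u).symm

lemma beta_flow (x : M) (t : ℝ) (u : TangentSpace 𝓘(ℝ, E) x) :
    β (φ x t) (mfderiv 𝓘(ℝ, E) 𝓘(ℝ, E) (fun y => φ y t) x u) = β x u :=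
  strict N.cd h0 hφ x t u

lemma ext_flow (x : M) (t : ℝ) (u v : TangentSpace 𝓘(ℝ, E) x) :
    extDer 𝓘(ℝ, E) β (φ x t) (mfderiv 𝓘(ℝ, E) 𝓘(ℝ, E) (fun y => φ y t) x u)
      (mfderiv 𝓘(ℝ, E) 𝓘(ℝ, E) (fun y => φ y t) x v) = extDer 𝓘(ℝ, E) β x u v :=
  ext_strict N.cd h0 hφ x t u v

lemma surj_flow (x : M) (t : ℝ) (w : TangentSpace 𝓘(ℝ, E) (φ x t)) :
    ∃ v : TangentSpace 𝓘(ℝ, E) x, mfderiv 𝓘(ℝ, E) 𝓘(ℝ, E) (fun y => φ y t) x v = w :=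
  surjD N.cd h0 hφ x t w

lemma key (x : M) (t : ℝ) :
    mfderiv 𝓘(ℝ, E) 𝓘(ℝ, E) (fun y => φ y t) x (Y x) =
      (inner ℝ (a (φ x t)) (a x) : ℝ) • Y (φ x t) ∧
    (inner ℝ (a (φ x t)) (a x) : ℝ) • a (φ x t) = a x := by
  have h1 : (DW f (φ x t) (mfderiv 𝓘(ℝ, E) 𝓘(ℝ, E) (fun y => φ y t) x (Y x)) : W) = 0 := by
    rw [DW_flow N h0 hφ]
    exact (N.ker _ _).2 ⟨0, 1, by rw [one_smul, zero_smul, zero_add]⟩
  obtain ⟨p, m, hpm⟩ := (N.ker _ _).1 h1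
  have hp : p = 0 := by
    have h2 := beta_flow N h0 hφ x t (Y x)
    rw [hpm, N.kerβ, map_add, map_smul, map_smul, N.cd.unit, N.kerβ] at h2
    simpa using h2
  rw [hp, zero_smul, zero_add] at hpm
  have h3 : ∀ v : TangentSpace 𝓘(ℝ, E) x,
      m * inner ℝ (a (φ x t)) (DW f x v : W) = inner ℝ (a x) (DW f x v : W) := by
    intro v
    have e1 := ext_flow N h0 hφ x t (Y x) v
    rw [hpm, ← extDerL_apply, map_smul] at e1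
    have e2 : m * extDer 𝓘(ℝ, E) β (φ x t) (Y (φ x t))
        (mfderiv 𝓘(ℝ, E) 𝓘(ℝ, E) (fun y => φ y t) x v) = extDer 𝓘(ℝ, E) β x (Y x) v := e1
    rw [N.theta, N.theta, DW_flow N h0 hφ] at e2
    exact e2
  obtain ⟨u, hu⟩ := N.mem (φ x t)
  obtain ⟨v, rfl⟩ := surj_flow N h0 hφ x t u
  rw [DW_flow N h0 hφ] at hu
  obtain ⟨u', hu'⟩ := N.mem x
  have h4 : m • a (φ x t) - a x = DW f x (m • v - u') := by
    rw [map_sub, map_smul, hu, hu']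
  have h5 : inner ℝ (m • a (φ x t) - a x) (m • a (φ x t) - a x) = (0 : ℝ) := by
    nth_rewrite 2 [h4]
    rw [inner_sub_left, real_inner_smul_left, h3, sub_self]
  have h6 : m • a (φ x t) = a x := sub_eq_zero.1 (inner_self_eq_zero.1 h5)
  have h7 : (inner ℝ (a (φ x t)) (a x) : ℝ) = m := by
    rw [← h6, real_inner_smul_right, real_inner_self_eq_norm_sq, N.unit]
    ring
  rw [h7]
  exact ⟨hpm, h6⟩

lemma cont_flow (x : M) : Continuous (φ x) :=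
  continuous_iff_continuousAt.2 fun t => (hφ x t).continuousAt

lemma inner_one (x : M) (t : ℝ) : (inner ℝ (a (φ x t)) (a x) : ℝ) = 1 := by
  have habs : ∀ s, |(inner ℝ (a (φ x s)) (a x) : ℝ)| = 1 := by
    intro s
    have h1 := congrArg norm (key N h0 hφ x s).2
    rwa [norm_smul, N.unit, N.unit, mul_one, Real.norm_eq_abs] at h1
  have hz : (inner ℝ (a (φ x 0)) (a x) : ℝ) = 1 := by
    rw [h0, real_inner_self_eq_norm_sq, N.unit]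
    norm_num
  have hc : Continuous fun s => (inner ℝ (a (φ x s)) (a x) : ℝ) :=
    (N.conta.comp (cont_flow N h0 hφ x)).inner continuous_const
  by_contra hne
  have h2 : (inner ℝ (a (φ x t)) (a x) : ℝ) = -1 := by
    rcases (abs_eq (by norm_num : (0 : ℝ) ≤ 1)).1 (habs t) with h | h
    · exact absurd h hne
    · exact h
  obtain ⟨s, hs⟩ := mem_range_of_exists_le_of_exists_ge hc (c := 0) ⟨t, by rw [h2]; norm_num⟩
    ⟨0, by rw [hz]; norm_num⟩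
  have h3 := habs s
  have hs' : (inner ℝ (a (φ x s)) (a x) : ℝ) = 0 := hs
  rw [hs', abs_zero] at h3
  norm_num at h3

/-- the flow of `R` preserves the normalised field `Y` and the function `a` -/
theorem inv (x : M) (t : ℝ) :
    (mfderiv 𝓘(ℝ, E) 𝓘(ℝ, E) (fun y => φ y t) x (Y x) : E) = Y (φ x t) ∧ a (φ x t) = a x := by
  obtain ⟨h1, h2⟩ := key N h0 hφ x t
  rw [inner_one N h0 hφ x t, one_smul] at h1 h2
  exact ⟨h1, h2⟩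

end

/-- **M2**: the commuting flows exist. -/
theorem flow [T2Space M] [CompactSpace M] (h : Nrm β R f Y a) :
    ∃ φ ψ : M → ℝ → M, Fl2 R Y φ ψ := by
  have : IsManifold 𝓘(ℝ, E) 1 M := IsManifold.of_le (n := ∞) (by simp)
  have hR := h.cd.smoothR
  have e1 := fun x : M => Wein.complete_of_compact hR isCompact_univ
    (fun y hy => absurd (mem_univ y) hy) x
  have e2 := fun x : M => Wein.complete_of_compact h.smoothY isCompact_univ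
    (fun y hy => absurd (mem_univ y) hy) x
  choose φ φ0 φint using e1
  choose ψ ψ0 ψint using e2
  refine ⟨φ, ψ, φ0, φint, ψ0, ψint, fun x s t => ?_⟩
  have hs : ContMDiff 𝓘(ℝ, E) 𝓘(ℝ, E) ∞ (fun y => φ y t) :=
    (contMDiff_flow hR φ0 φint).comp (contMDiff_id.prodMk contMDiff_const)
  exact comm_flow h.smoothY ψ0 ψint hs (fun y => (inv h φ0 φint y t).1) x s

/-- **M2'**: the action of the plane. -/
theorem actProp [T2Space M] (h : Nrm β R f Y a) {φ ψ : M → ℝ → M} (F : Fl2 R Y φ ψ) :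
    ContMDiff (𝓘(ℝ, ℝ × ℝ).prod 𝓘(ℝ, E)) 𝓘(ℝ, E) ∞
        (fun p : (ℝ × ℝ) × M => act φ ψ p.1 p.2) ∧
      (∀ x, act φ ψ 0 x = x) ∧
      (∀ γ γ' x, act φ ψ (γ + γ') x = act φ ψ γ (act φ ψ γ' x)) ∧
      (∀ γ x, f (act φ ψ γ x) = f x) := by
  have : IsManifold 𝓘(ℝ, E) 1 M := IsManifold.of_le (n := ∞) (by simp)
  have hR := h.cd.smoothR
  have s1 := contMDiff_flow hR F.φ0 F.φint
  have s2 := contMDiff_flow h.smoothY F.ψ0 F.ψint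
  have a1 := flow_add hR F.φ0 F.φint
  have a2 := flow_add h.smoothY F.ψ0 F.ψint
  have k1 : ∀ x, DW f x (R x) = 0 := fun x => (h.ker x (R x)).2 ⟨1, 0, by simp⟩
  have k2 : ∀ x, DW f x (Y x) = 0 := fun x => (h.ker x (Y x)).2 ⟨0, 1, by simp⟩
  have c1 := const_flow F.φ0 F.φint h.smoothf k1
  have c2 := const_flow F.ψ0 F.ψint h.smoothf k2
  refine ⟨?_, ?_, ?_, ?_⟩
  · have t1 : ContMDiff (𝓘(ℝ, ℝ × ℝ).prod 𝓘(ℝ, E)) 𝓘(ℝ, ℝ) ∞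
        (fun p : (ℝ × ℝ) × M => p.1.1) :=
      (contDiff_fst (𝕜 := ℝ) (E := ℝ) (F := ℝ) (n := ∞)).contMDiff.comp contMDiff_fst
    have t2 : ContMDiff (𝓘(ℝ, ℝ × ℝ).prod 𝓘(ℝ, E)) 𝓘(ℝ, ℝ) ∞
        (fun p : (ℝ × ℝ) × M => p.1.2) :=
      (contDiff_snd (𝕜 := ℝ) (E := ℝ) (F := ℝ) (n := ∞)).contMDiff.comp contMDiff_fst
    have t3 : ContMDiff (𝓘(ℝ, ℝ × ℝ).prod 𝓘(ℝ, E)) 𝓘(ℝ, E) ∞
        (fun p : (ℝ × ℝ) × M => ψ p.2 p.1.2) :=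
      s2.comp (contMDiff_snd.prodMk t2)
    exact s1.comp (t3.prodMk t1)
  · intro x
    unfold act
    simp [F.φ0, F.ψ0]
  · intro γ γ' x
    unfold act
    rw [Prod.fst_add, Prod.snd_add, add_comm γ.1 γ'.1, add_comm γ.2 γ'.2, a1, a2,
      ← F.comm (ψ x γ'.2) γ.2 γ'.1]
  · intro γ x
    unfold act
    rw [c1, c2]

/-- the effect of the action on the one-form -/
theorem form [T2Space M] (hN : Nrm β R f Y a) {φ ψ : M → ℝ → M} (hF : Fl2 R Y φ ψ)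
    (ha : ∀ x s, a (ψ x s) = a x) (γ : ℝ × ℝ) (x : M) (v : TangentSpace 𝓘(ℝ, E) x) :
    β (act φ ψ γ x) (mfderiv 𝓘(ℝ, E) 𝓘(ℝ, E) (act φ ψ γ) x v) =
      β x v + γ.2 * inner ℝ (a x) (DW f x v) := by
  have hM1 : IsManifold 𝓘(ℝ, E) 1 M := IsManifold.of_le (n := ∞) (by simp)
  have c := hN.cd
  have hR := c.smoothR
  have hφs : ∀ t, ContMDiff 𝓘(ℝ, E) 𝓘(ℝ, E) ∞ (fun y => φ y t) := fun t =>
    (contMDiff_flow hR hF.φ0 hF.φint).comp (contMDiff_id.prodMk contMDiff_const)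
  have hψs : ∀ t, ContMDiff 𝓘(ℝ, E) 𝓘(ℝ, E) ∞ (fun y => ψ y t) := fun t =>
    (contMDiff_flow hN.smoothY hF.ψ0 hF.ψint).comp (contMDiff_id.prodMk contMDiff_const)
  have hYk : ∀ y, DW f y (Y y) = 0 := fun y =>
    (hN.ker y (Y y)).2 ⟨0, 1, by simp⟩
  have hfc : ∀ y s, f (ψ y s) = f y := const_along hN.smoothf hYk hF.ψ0 hF.ψint
  -- the chain rule for `f`
  have hch : ∀ (s : ℝ), DW f (ψ x s) (mfderiv 𝓘(ℝ, E) 𝓘(ℝ, E) (fun y => ψ y s) x v) =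
      DW f x v := by
    intro s
    have h1 : mfderiv 𝓘(ℝ, E) 𝓘(ℝ, W) (f ∘ fun y => ψ y s) x =
        (mfderiv 𝓘(ℝ, E) 𝓘(ℝ, W) f (ψ x s)).comp
        (mfderiv 𝓘(ℝ, E) 𝓘(ℝ, E) (fun y => ψ y s) x) :=
      mfderiv_comp _ (hN.smoothf.mdifferentiableAt (by simp))
        ((hψs s).mdifferentiableAt (by simp))
    have h2 : (f ∘ fun y => ψ y s) = f := by
      funext y
      exact hfc y s
    rw [h2] at h1
    exact (congrArg (fun T : E →L[ℝ] W => T (v : E)) h1).symm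
  -- the second flow
  have hψβ : β (ψ x γ.2) (mfderiv 𝓘(ℝ, E) 𝓘(ℝ, E) (fun y => ψ y γ.2) x v) =
      β x v + γ.2 * inner ℝ (a x) (DW f x v) := by
    refine var_flow c.smooth hN.smoothY hF.ψ0 hF.ψint hN.kerβ x v ?_ γ.2
    intro s
    rw [hN.theta, ha, hch]
  -- the first flow
  have hφβ : β (φ (ψ x γ.2) γ.1) (mfderiv 𝓘(ℝ, E) 𝓘(ℝ, E) (fun y => φ y γ.1) (ψ x γ.2)
      (mfderiv 𝓘(ℝ, E) 𝓘(ℝ, E) (fun y => ψ y γ.2) x v)) =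
      β (ψ x γ.2) (mfderiv 𝓘(ℝ, E) 𝓘(ℝ, E) (fun y => ψ y γ.2) x v) + γ.1 * 0 := by
    refine var_flow c.smooth hR hF.φ0 hF.φint c.unit _ _ ?_ γ.1
    intro s
    rw [c.kernel]
  have hcomp : mfderiv 𝓘(ℝ, E) 𝓘(ℝ, E) ((fun y => φ y γ.1) ∘ (fun y => ψ y γ.2)) x =
      (mfderiv 𝓘(ℝ, E) 𝓘(ℝ, E) (fun y => φ y γ.1) (ψ x γ.2)).comp
      (mfderiv 𝓘(ℝ, E) 𝓘(ℝ, E) (fun y => ψ y γ.2) x) :=
    mfderiv_comp _ ((hφs γ.1).mdifferentiableAt (by simp))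
      ((hψs γ.2).mdifferentiableAt (by simp))
  have hfin : β (act φ ψ γ x) (mfderiv 𝓘(ℝ, E) 𝓘(ℝ, E) (act φ ψ γ) x v) =
      β (φ (ψ x γ.2) γ.1) (mfderiv 𝓘(ℝ, E) 𝓘(ℝ, E) (fun y => φ y γ.1) (ψ x γ.2)
      (mfderiv 𝓘(ℝ, E) 𝓘(ℝ, E) (fun y => ψ y γ.2) x v)) := by
    have h1 : mfderiv 𝓘(ℝ, E) 𝓘(ℝ, E) (act φ ψ γ) x v =
        (mfderiv 𝓘(ℝ, E) 𝓘(ℝ, E) ((fun y => φ y γ.1) ∘ (fun y => ψ y γ.2)) x) v := rfl
    rw [h1, hcomp]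
    rfl
  rw [hfin, hφβ, hψβ, mul_zero, add_zero]

/-- the derivative of the first coordinate of a selection -/
theorem der [T2Space M] (hN : Nrm β R f Y a) {φ ψ : M → ℝ → M} (hfl : Fl2 R Y φ ψ)
    (hK : ContMDiff (𝓘(ℝ, ℝ × ℝ).prod 𝓘(ℝ, E)) 𝓘(ℝ, E) ∞
      (fun p : (ℝ × ℝ) × M => act φ ψ p.1 p.2))
    (hform : ∀ (γ : ℝ × ℝ) (x : M) (v : TangentSpace 𝓘(ℝ, E) x),
      β (act φ ψ γ x) (mfderiv 𝓘(ℝ, E) 𝓘(ℝ, E) (act φ ψ γ) x v) =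
        β x v + γ.2 * inner ℝ (a x) (DW f x v))
    (x₀ : M) (γ : M → ℝ × ℝ) (hγ : ContMDiffAt 𝓘(ℝ, E) 𝓘(ℝ, ℝ × ℝ) ∞ γ x₀)
    (hfix : ∀ᶠ x in 𝓝 x₀, act φ ψ (γ x) x = x) (v : TangentSpace 𝓘(ℝ, E) x₀) :
    (mfderiv 𝓘(ℝ, E) 𝓘(ℝ, ℝ) (fun x => (γ x).1) x₀ v : ℝ) =
      - (γ x₀).2 * inner ℝ (a x₀) (DW f x₀ v) := by
  have hx₀ : act φ ψ (γ x₀) x₀ = x₀ := hfix.self_of_nhds
  have hKd : MDifferentiableAt (𝓘(ℝ, ℝ × ℝ).prod 𝓘(ℝ, E)) 𝓘(ℝ, E)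
      (fun p : (ℝ × ℝ) × M => act φ ψ p.1 p.2) (γ x₀, x₀) :=
    hK.mdifferentiableAt (by simp)
  have hγd : MDifferentiableAt 𝓘(ℝ, E) 𝓘(ℝ, ℝ × ℝ) γ x₀ := hγ.mdifferentiableAt (by simp)
  have hF : MDifferentiableAt 𝓘(ℝ, ℝ × ℝ) 𝓘(ℝ, E) (fun s => act φ ψ s x₀) (γ x₀) := by
    have h1 : ContMDiff 𝓘(ℝ, ℝ × ℝ) 𝓘(ℝ, E) ∞ (fun s => act φ ψ s x₀) :=
      hK.comp (contMDiff_id.prodMk contMDiff_const)
    exact h1.mdifferentiableAt (by simp)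
  set g' : E →L[ℝ] (ℝ × ℝ) := mfderiv 𝓘(ℝ, E) 𝓘(ℝ, ℝ × ℝ) γ x₀ with hg'
  -- the chain rule
  have hA : HasMFDerivAt 𝓘(ℝ, E) (𝓘(ℝ, ℝ × ℝ).prod 𝓘(ℝ, E)) (fun x => (γ x, x)) x₀
      (ContinuousLinearMap.prod (g' : E →L[ℝ] (ℝ × ℝ)) (ContinuousLinearMap.id ℝ E)) :=
    HasMFDerivAt.prodMk hγd.hasMFDerivAt (hasMFDerivAt_id x₀)
  have hB := HasMFDerivAt.comp x₀ (f := fun x => (γ x, x))
    (g := fun p : (ℝ × ℝ) × M => act φ ψ p.1 p.2) hKd.hasMFDerivAt hA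
  have hC : HasMFDerivAt 𝓘(ℝ, E) 𝓘(ℝ, E) (fun x => act φ ψ (γ x) x) x₀
      (ContinuousLinearMap.id ℝ E) := by
    have h1 : HasMFDerivAt 𝓘(ℝ, E) 𝓘(ℝ, E) (@id M) x₀ (ContinuousLinearMap.id ℝ E) :=
      hasMFDerivAt_id x₀
    exact h1.congr_of_eventuallyEq hfix
  have hD := hasMFDerivAt_unique hB hC
  have hE : (mfderiv (𝓘(ℝ, ℝ × ℝ).prod 𝓘(ℝ, E)) 𝓘(ℝ, E)
      (fun p : (ℝ × ℝ) × M => act φ ψ p.1 p.2) (γ x₀, x₀) (g' v, (v : E)) : E) = v :=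
    DFunLike.congr_fun hD v
  have hG : (mfderiv (𝓘(ℝ, ℝ × ℝ).prod 𝓘(ℝ, E)) 𝓘(ℝ, E)
      (fun p : (ℝ × ℝ) × M => act φ ψ p.1 p.2) (γ x₀, x₀) (g' v, (v : E)) : E) =
      (mfderiv 𝓘(ℝ, ℝ × ℝ) 𝓘(ℝ, E) (fun s => act φ ψ s x₀) (γ x₀) (g' v) : E) +
      (mfderiv 𝓘(ℝ, E) 𝓘(ℝ, E) (act φ ψ (γ x₀)) x₀ v : E) :=
    mfderiv_prod_eq_add_apply hKd
  rw [hE] at hG
  have hH : (mfderiv 𝓘(ℝ, ℝ × ℝ) 𝓘(ℝ, E) (fun s => act φ ψ s x₀) (γ x₀) (g' v) : E) =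
      (g' v).1 • (R (act φ ψ (γ x₀) x₀) : E) + (g' v).2 • (Y (act φ ψ (γ x₀) x₀) : E) :=
    mfderiv_act hfl x₀ (γ x₀) hF (g' v).1 (g' v).2
  rw [hH] at hG
  -- apply the form
  have hβ1 : (β (act φ ψ (γ x₀) x₀) : E →L[ℝ] ℝ) (R (act φ ψ (γ x₀) x₀) : E) = 1 :=
    hN.cd.unit _
  have hβ2 : (β (act φ ψ (γ x₀) x₀) : E →L[ℝ] ℝ) (Y (act φ ψ (γ x₀) x₀) : E) = 0 :=
    hN.kerβ _
  have hβ3 := hform (γ x₀) x₀ v
  have hβ4 : (β (act φ ψ (γ x₀) x₀) : E →L[ℝ] ℝ) (v : E) = β x₀ v := by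
    have : ∀ z : M, z = x₀ → (β z : E →L[ℝ] ℝ) (v : E) = β x₀ v := by
      rintro z rfl; rfl
    exact this _ hx₀
  have hI : (β (act φ ψ (γ x₀) x₀) : E →L[ℝ] ℝ) (v : E) =
      (g' v).1 * 1 + (g' v).2 * 0 +
        (β x₀ v + (γ x₀).2 * inner ℝ (a x₀) (DW f x₀ v)) := by
    rw [← hβ1, ← hβ2, ← hβ3]
    have h1 := congrArg (β (act φ ψ (γ x₀) x₀) : E →L[ℝ] ℝ) hG
    refine h1.trans ?_
    rw [map_add, map_add, map_smul, map_smul]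
    rfl
  rw [hβ4] at hI
  -- the first component
  have hJ : (mfderiv 𝓘(ℝ, E) 𝓘(ℝ, ℝ) (fun x => (γ x).1) x₀ v : ℝ) = (g' v).1 := by
    have h1 : HasMFDerivAt 𝓘(ℝ, ℝ × ℝ) 𝓘(ℝ, ℝ) (Prod.fst : ℝ × ℝ → ℝ) (γ x₀)
        (ContinuousLinearMap.fst ℝ ℝ ℝ) :=
      (ContinuousLinearMap.fst ℝ ℝ ℝ).hasFDerivAt.hasMFDerivAt
    have h2 := HasMFDerivAt.comp x₀ h1 hγd.hasMFDerivAt
    have h3 : mfderiv 𝓘(ℝ, E) 𝓘(ℝ, ℝ) (fun x => (γ x).1) x₀ = _ := h2.mfderiv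
    rw [h3]
    rfl
  have key : ∀ b p q c i : ℝ, b = p * 1 + q * 0 + (b + c * i) → p = -c * i := by
    intro b p q c i h
    linarith
  exact hJ.trans (key _ _ _ _ _ hI)

end Pool.Agent.H904.SF
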