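import Pool.Agent.H904.SF.Stm
import Pool.Graph.R_pool_sql_team_seeded_63374d34.N488.WF.Loc

/-! # The local structure of the action (after library module N488/WF/Loc) -/

set_option autoImplicit false
set_option linter.unusedSectionVars false

open scoped Topology ContDiff Manifold
open Set Filter Bundle Pool.Agent.Helper186 Pool.Agent.H826R2

noncomputable section

namespace Pool.Agent.H904.SF

open Pool.Agent.N287.WF (DW Fl2 act LocProp)
open Pool.Agent.N488.WF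

universe u v w

variable {E : Type u} [NormedAddCommGroup E] [NormedSpace ℝ E] [FiniteDimensional ℝ E]
  {M : Type v} [TopologicalSpace M] [ChartedSpace E M] [IsManifold 𝓘(ℝ, E) ∞ M]
  {W : Type w} [NormedAddCommGroup W] [InnerProductSpace ℝ W] [FiniteDimensional ℝ W]
  {β : (x : M) → TangentSpace 𝓘(ℝ, E) x →L[ℝ] ℝ} {R : (x : M) → TangentSpace 𝓘(ℝ, E) x}
  {f : M → W} {Y : (x : M) → TangentSpace 𝓘(ℝ, E) x} {a : M → W}

/-- M3: local structure -/
theorem loc [T2Space M] (hN : Nrm β R f Y a) {φ ψ : M → ℝ → M} (hfl : Fl2 R Y φ ψ)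
    (hA : ContMDiff (𝓘(ℝ, ℝ × ℝ).prod 𝓘(ℝ, E)) 𝓘(ℝ, E) ∞
      (fun p : (ℝ × ℝ) × M => act φ ψ p.1 p.2))
    (h0 : ∀ x, act φ ψ 0 x = x)
    (hadd : ∀ γ γ' x, act φ ψ (γ + γ') x = act φ ψ γ (act φ ψ γ' x))
    (hf : ∀ γ x, f (act φ ψ γ x) = f x) : LocProp E f φ ψ := by
  intro x₀
  set A : (ℝ × ℝ) × M → M := fun p => act φ ψ p.1 p.2 with hAdef
  set c := chartAt E x₀ with hc
  let D : E →L[ℝ] W := DW f x₀
  let r : E := R x₀
  let y : E := Y x₀
  have hker : ∀ u : E, D u = 0 ↔ ∃ p q : ℝ, u = p • r + q • y := hN.ker x₀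
  have hind : ∀ p q : ℝ, p • r + q • y = 0 → p = 0 ∧ q = 0 := by
    intro p q hpq
    have h1 : β x₀ (p • R x₀ + q • Y x₀) = β x₀ 0 := congrArg (β x₀) hpq
    rw [map_add, map_smul, map_smul, hN.cd.unit, hN.kerβ, map_zero] at h1
    have hp : p = 0 := by simpa using h1
    refine ⟨hp, ?_⟩
    rw [hp, zero_smul, zero_add] at hpq
    rcases smul_eq_zero.1 hpq with h2 | h2
    · exact h2
    · exact absurd h2 (hN.ne x₀)
  obtain ⟨H, hH⟩ := Submodule.exists_isCompl (LinearMap.ker (D : E →ₗ[ℝ] W))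
  obtain ⟨L, hL, hLf⟩ := gm_deriv hfl hA h0 x₀ H r y rfl rfl
  have hmemH : ∀ h : H, D h = 0 → h = 0 := by
    intro h hh
    have h1 : (h : E) ∈ LinearMap.ker (D : E →ₗ[ℝ] W) ⊓ H := ⟨hh, h.2⟩
    rw [hH.inf_eq_bot] at h1
    exact Subtype.ext ((Submodule.mem_bot ℝ).1 h1)
  have hinjL : L.ker = ⊥ := by
    rw [LinearMap.ker_eq_bot']
    rintro ⟨p, h⟩ hp
    have h1 : p.1 • r + p.2 • y + (h : E) = 0 := by rw [← hLf]; exact hp
    have h2 : D (p.1 • r + p.2 • y) = 0 := (hker _).2 ⟨_, _, rfl⟩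
    have h3 : D h = 0 := by
      have h4 : (h : E) = -(p.1 • r + p.2 • y) := by
        rw [eq_neg_iff_add_eq_zero, add_comm]; exact h1
      rw [h4, map_neg, h2, neg_zero]
    have h5 := hmemH h h3
    rw [h5] at h1
    obtain ⟨h6, h7⟩ := hind p.1 p.2 (by simpa using h1)
    rw [h5]
    ext
    · exact h6
    · exact h7
    · rfl
  have hsurL : L.range = ⊤ := by
    rw [LinearMap.range_eq_top]
    intro e
    have h1 : e ∈ LinearMap.ker (D : E →ₗ[ℝ] W) ⊔ H := by rw [hH.sup_eq_top]; trivial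
    obtain ⟨e₁, he₁, e₂, he₂, rfl⟩ := Submodule.mem_sup.1 h1
    obtain ⟨p, q, hpq⟩ := (hker e₁).1 he₁
    exact ⟨((p, q), ⟨e₂, he₂⟩), by rw [hpq]; exact hLf (p, q) ⟨e₂, he₂⟩⟩
  set L' := ContinuousLinearEquiv.ofBijective L hinjL hsurL with hL'
  have hLL : (L' : (ℝ × ℝ) × H →L[ℝ] E) = L := ContinuousLinearEquiv.coe_ofBijective L hinjL hsurL
  rw [← hLL] at hL
  -- the restriction of `f` to the transversal
  set k : H → W := fun h => f (c.symm (c x₀ + h)) with hk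
  have hkd : HasStrictFDerivAt k (D.comp H.subtypeL) 0 := by
    have h1 : HasStrictFDerivAt (fun y => f (c.symm y)) D (c x₀) :=
      (f_smooth hN.smoothf x₀).hasStrictFDerivAt' (f_deriv hN.smoothf x₀) (by simp)
    have h2 : HasStrictFDerivAt (fun h : H => c x₀ + (h : E)) H.subtypeL 0 :=
      H.subtypeL.hasStrictFDerivAt.const_add _
    have h3 : HasStrictFDerivAt (fun y => f (c.symm y)) D (c x₀ + ((0 : H) : E)) := by
      simpa using h1
    exact HasStrictFDerivAt.comp (g := fun y => f (c.symm y))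
      (f := fun h : H => c x₀ + (h : E)) (0 : H) h3 h2
  obtain ⟨O, hO, h0O, hinj⟩ := locinj k (D.comp H.subtypeL) 0 hkd (fun h hh => hmemH h hh)
  have hmem : (0 : (ℝ × ℝ) × H) ∈ gdom A x₀ H := by
    refine ⟨?_, ?_⟩
    · simp [mem_chart_target E x₀]
    · simp [hAdef, h0, mem_chart_source E x₀]
  obtain ⟨T, hTg, h0T, hTN, hTs⟩ := ift (gm A x₀ H) 0 L' (gdom A x₀ H ∩ Prod.snd ⁻¹' O)
    ((gdom_open hA x₀ H).inter (hO.preimage continuous_snd)) ⟨hmem, h0O⟩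
    ((gm_smooth hA x₀ H).mono inter_subset_left) hL
  have key1 : ∀ p ∈ T.source, act φ ψ p.1 (c.symm (c x₀ + p.2)) ∈ c.source ∩ c ⁻¹' T.target ∧
      T.symm (c (act φ ψ p.1 (c.symm (c x₀ + p.2)))) = p := by
    intro p hp
    have h1 : c (act φ ψ p.1 (c.symm (c x₀ + p.2))) = T p := by rw [hTg]; rfl
    refine ⟨⟨(hTN hp).1.2, ?_⟩, ?_⟩
    · show c _ ∈ T.target
      rw [h1]; exact T.map_source hp
    · rw [h1]; exact T.left_inv hp
  have key2 : ∀ x ∈ c.source ∩ c ⁻¹' T.target,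
      act φ ψ (T.symm (c x)).1 (c.symm (c x₀ + (T.symm (c x)).2)) = x := by
    intro x hx
    have hp : T.symm (c x) ∈ T.source := T.map_target hx.2
    have h1 : c (act φ ψ (T.symm (c x)).1 (c.symm (c x₀ + (T.symm (c x)).2))) =
        T (T.symm (c x)) := by rw [hTg]; rfl
    rw [T.right_inv hx.2] at h1
    exact c.injOn (hTN hp).1.2 hx.1 h1
  have hx₀ : x₀ ∈ c.source ∩ c ⁻¹' T.target := by
    have h1 := (key1 0 h0T).1
    have h2 : act φ ψ (0 : (ℝ × ℝ) × H).1 (c.symm (c x₀ + (0 : (ℝ × ℝ) × H).2)) = x₀ := by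
      simp [h0, hc]
    rwa [h2] at h1
  have hτ₀ : T.symm (c x₀) = 0 := by
    have h1 := (key1 0 h0T).2
    have h2 : act φ ψ (0 : (ℝ × ℝ) × H).1 (c.symm (c x₀ + (0 : (ℝ × ℝ) × H).2)) = x₀ := by
      simp [h0, hc]
    rwa [h2] at h1
  have hU : IsOpen (c.source ∩ c ⁻¹' T.target) := c.isOpen_inter_preimage T.open_target
  refine ⟨c.source ∩ c ⁻¹' T.target, hU, hx₀, fun x => (T.symm (c x)).1, ?_, ?_, ?_, ?_⟩
  · have h1 : ContMDiffOn 𝓘(ℝ, E) 𝓘(ℝ, (ℝ × ℝ) × H) ∞ T.symm T.target :=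
      hTs.contMDiffOn
    have h2 : ContMDiffOn 𝓘(ℝ, E) 𝓘(ℝ, E) ∞ c (c.source ∩ c ⁻¹' T.target) :=
      (contMDiffOn_chart (I := 𝓘(ℝ, E)) (x := x₀)).mono inter_subset_left
    have h3 : ContMDiff 𝓘(ℝ, (ℝ × ℝ) × H) 𝓘(ℝ, ℝ × ℝ) ∞ (Prod.fst : (ℝ × ℝ) × H → ℝ × ℝ) :=
      contDiff_fst.contMDiff
    exact h3.comp_contMDiffOn (h1.comp h2 fun x hx => hx.2)
  · show (T.symm (c x₀)).1 = 0
    rw [hτ₀]; rfl
  · intro x hx x' hx' hxx
    have hp : T.symm (c x) ∈ T.source := T.map_target hx.2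
    have hp' : T.symm (c x') ∈ T.source := T.map_target hx'.2
    have e1 := key2 x hx
    have e2 := key2 x' hx'
    have h1 : k (T.symm (c x)).2 = k (T.symm (c x')).2 := by
      have h2 : f x = k (T.symm (c x)).2 := by
        conv_lhs => rw [← e1]
        rw [hf]
      have h3 : f x' = k (T.symm (c x')).2 := by
        conv_lhs => rw [← e2]
        rw [hf]
      rw [← h2, ← h3, hxx]
    have h2 : (T.symm (c x)).2 = (T.symm (c x')).2 := hinj (hTN hp).2 (hTN hp').2 h1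
    have h9 : act φ ψ ((T.symm (c x)).1 - (T.symm (c x')).1)
        (act φ ψ (T.symm (c x')).1 (c.symm (c x₀ + (T.symm (c x')).2))) = x := by
      rw [← hadd, sub_add_cancel, ← h2]
      exact e1
    rwa [e2] at h9
  · -- the translation property
    have hcT : ContinuousAt (fun x => T.symm (c x)) x₀ :=
      ContinuousAt.comp (f := c) (g := T.symm) (T.continuousAt_symm hx₀.2)
        (c.continuousAt hx₀.1)
    have h1 : ContinuousAt (fun z : M × (ℝ × ℝ) =>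
        (((T.symm (c z.1)).1 + z.2, (T.symm (c z.1)).2) : (ℝ × ℝ) × H)) (x₀, 0) := by
      have h2 : ContinuousAt (fun z : M × (ℝ × ℝ) => T.symm (c z.1)) (x₀, 0) :=
        ContinuousAt.comp (f := fun z : M × (ℝ × ℝ) => z.1) (g := fun x => T.symm (c x)) hcT
          continuousAt_fst
      exact ((continuousAt_fst.comp h2).add continuousAt_snd).prodMk (continuousAt_snd.comp h2)
    have h3 : ∀ᶠ z : M × (ℝ × ℝ) in 𝓝 (x₀, 0),
        (((T.symm (c z.1)).1 + z.2, (T.symm (c z.1)).2) : (ℝ × ℝ) × H) ∈ T.source := by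
      apply h1.eventually_mem
      have h4 : (((T.symm (c x₀)).1 + (0 : ℝ × ℝ), (T.symm (c x₀)).2) : (ℝ × ℝ) × H) = 0 := by
        rw [hτ₀]; simp
      show T.source ∈ 𝓝 (((T.symm (c x₀)).1 + (0 : ℝ × ℝ), (T.symm (c x₀)).2) : (ℝ × ℝ) × H)
      rw [h4]
      exact T.open_source.mem_nhds h0T
    rw [nhds_prod_eq] at h3
    obtain ⟨V, hV, S, hS, hVS⟩ := Filter.eventually_prod_iff.1 h3
    obtain ⟨ε, hε, hεS⟩ := Metric.eventually_nhds_iff.1 hS
    refine ⟨ε, hε, ?_⟩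
    filter_upwards [hV, hU.mem_nhds hx₀] with x hxV hxU s hs
    have h5 := hVS hxV (hεS (by simpa using hs : dist s 0 < ε))
    obtain ⟨h6, h7⟩ := key1 _ h5
    have h8 : act φ ψ ((T.symm (c x)).1 + s) (c.symm (c x₀ + (T.symm (c x)).2)) =
        act φ ψ s x := by
      rw [add_comm, hadd, key2 x hxU]
    simp only at h6 h7
    rw [h8] at h6 h7
    refine ⟨h6, ?_⟩
    show (T.symm (c (act φ ψ s x))).1 = (T.symm (c x)).1 + s
    rw [h7]

end Pool.Agent.H904.SF
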