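import Pool.Agent.H904.SF.Nrm
import Pool.Agent.H904.SF.Inv
import Pool.Agent.H904.SF.Loc
import Pool.Graph.R_pool_sql_team_seeded_63374d34.N596.WF.A1
import Pool.Graph.R_pool_sql_team_seeded_63374d34.N603.WF.A2
import Pool.Graph.R_pool_sql_team_seeded_63374d34.N170.WF.A3
import Pool.Graph.R_pool_sql_team_seeded_63374d34.N700.WF.M4
import Pool.Graph.R_pool_sql_team_seeded_63374d34.N79.WF.M6
import Pool.Graph.R_pool_sql_team_seeded_63374d34.N427.WF.M7a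

/-! # The engine (after library module N287/WF/Asm) -/

set_option autoImplicit false
set_option linter.unusedSectionVars false

open scoped Topology ContDiff Manifold
open Set Filter Bundle Pool.Agent.Helper186 Pool.Agent.H826R2

noncomputable section

namespace Pool.Agent.H904.SF

open Pool.Agent.N287.WF (DW Fl2 act LocProp AbsStm SelPropStm stab)

universe u v w

variable {E : Type u} [NormedAddCommGroup E] [NormedSpace ℝ E] [FiniteDimensional ℝ E]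
  {M : Type v} [TopologicalSpace M] [ChartedSpace E M] [IsManifold 𝓘(ℝ, E) ∞ M]
  {W : Type w} [NormedAddCommGroup W] [InnerProductSpace ℝ W] [FiniteDimensional ℝ W]

/-- the engine -/
theorem exists_periodic_aux [T2Space M] [CompactSpace M] [Nonempty M]
    {β : (x : M) → TangentSpace 𝓘(ℝ, E) x →L[ℝ] ℝ} {R : (x : M) → TangentSpace 𝓘(ℝ, E) x}
    {f : M → W} {Z : (x : M) → TangentSpace 𝓘(ℝ, E) x} (h : Fib β R f Z) :
    ∃ (Y : (x : M) → TangentSpace 𝓘(ℝ, E) x) (a : M → W) (φ ψ : M → ℝ → M), Nrm β R f Y a ∧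
      Fl2 R Y φ ψ ∧
      ContMDiff (𝓘(ℝ, ℝ × ℝ).prod 𝓘(ℝ, E)) 𝓘(ℝ, E) ∞
        (fun p : (ℝ × ℝ) × M => act φ ψ p.1 p.2) ∧
      (∀ γ x, f (act φ ψ γ x) = f x) ∧
      ∃ (x : M) (t : ℝ), 0 < t ∧ φ x t = x := by
  have hP : SelPropStm.{u, v} := Pool.Agent.N427.WF.selProp
  have hA : AbsStm.{v} := Pool.Agent.N170.WF.abs_false Pool.Agent.N596.WF.basis
      Pool.Agent.N603.WF.localBasis
  obtain ⟨Y, a, hY⟩ := nrm_aux β R f Z h
  obtain ⟨φ, ψ, hfl⟩ := flow hY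
  obtain ⟨hsm, h0, hadd, hf⟩ := actProp hY hfl
  have hloc := loc hY hfl hsm h0 hadd hf
  obtain ⟨hsel, hdisc⟩ := Pool.Agent.N700.WF.sel E M W f φ ψ hsm h0 hadd hf hloc
  have hφ : ∀ x t, act φ ψ (t, 0) x = φ x t := fun x t => by
    show φ (ψ x 0) t = φ x t
    rw [hfl.ψ0]
  refine ⟨Y, a, φ, ψ, hY, hfl, hsm, hf, ?_⟩
  by_contra hno
  have hper : ∀ x (t : ℝ), act φ ψ (t, 0) x = x → t = 0 := by
    intro x t ht
    by_contra hne
    rcases lt_or_gt_of_ne hne with h1 | h1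
    · refine hno ⟨x, -t, by linarith, ?_⟩
      rw [← hφ]
      have h2 : act φ ψ ((-t, 0) + (t, 0)) x = x := by
        rw [show (((-t, 0) : ℝ × ℝ) + (t, 0)) = 0 by ext <;> simp]
        exact h0 x
      rw [hadd, ht] at h2
      exact h2
    · exact hno ⟨x, t, h1, by rw [← hφ]; exact ht⟩
  obtain ⟨hsmall, hconst⟩ := Pool.Agent.N79.WF.small E M W f φ ψ hY.smoothf.continuous hsm.continuous h0 hadd hf hloc
    hper
  have haφ : ∀ x t, a (act φ ψ (t, 0) x) = a x := fun x t => by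
    rw [hφ]
    exact (inv hY hfl.φ0 hfl.φint x t).2
  have haψ : ∀ x s, a (ψ x s) = a x := fun x s => by
    have h1 := hconst W a hY.conta haφ (0, s) x
    have h2 : act φ ψ (0, s) x = ψ x s := by
      show φ (ψ x s) 0 = ψ x s
      rw [hfl.φ0]
    rw [h2] at h1
    exact h1
  have hform := form hY hfl haψ
  have hder := der hY hfl hsm hform
  set Λ : M → AddSubgroup (ℝ × ℝ) := stab φ ψ h0 hadd with hΛ
  let θ : (x : M) → TangentSpace 𝓘(ℝ, E) x →L[ℝ] ℝ := fun x =>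
    (innerSL ℝ (a x)).comp (show TangentSpace 𝓘(ℝ, E) x →L[ℝ] W from DW f x)
  have hθ : ∀ x, θ x ≠ 0 := by
    intro x hx
    obtain ⟨u, hu⟩ := hY.mem x
    have h1 : θ x u = 0 := by rw [hx]; rfl
    have h2 : θ x u = inner ℝ (a x) (DW f x u) := rfl
    rw [h2, hu, real_inner_self_eq_norm_sq, hY.unit] at h1
    norm_num at h1
  obtain ⟨ε, hε, hε'⟩ := hdisc ‹_›
  have hdisc' : ∃ ε > 0, ∀ x, ∀ γ ∈ Λ x, ‖γ‖ < ε → γ = 0 :=
    ⟨ε, hε, fun x γ hγ hn => hε' x γ hγ hn⟩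
  obtain ⟨hc1, hc2⟩ := hP E M θ Λ hθ hdisc'
    (fun x₀ γ₀ hγ₀ => hsel x₀ γ₀ hγ₀)
    (fun x₀ γ hγ hγ' v => hder x₀ γ hγ hγ' v)
  have : LocallyConnectedSpace M := ChartedSpace.locallyConnectedSpace E M
  refine hA M Λ ⟨?_, hdisc', ?_, ?_, ?_⟩ hc1 hc2
  · have h1 : Continuous (fun p : M × (ℝ × ℝ) => act φ ψ p.2 p.1) :=
      hsm.continuous.comp (continuous_snd.prodMk continuous_fst)
    exact isClosed_eq h1 continuous_fst
  · intro x₀ γ₀ hγ₀
    obtain ⟨γ, h1, h2⟩ := hsel x₀ γ₀ hγ₀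
    refine ⟨γ, h1, ?_⟩
    filter_upwards [h2] with x hx
    exact ⟨hx.1.continuousAt, hx.2⟩
  · intro x t ht
    exact hper x t ht
  · intro x δ hδ
    obtain ⟨γ, h1, h2, h3⟩ := hsmall x δ hδ
    exact ⟨γ, h1, h2, h3⟩

end Pool.Agent.H904.SF
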