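import Pool.Agent.H904.SF.Asm

/-! # Closed families of invariant surfaces -/

set_option autoImplicit false
set_option linter.unusedSectionVars false

open scoped Topology ContDiff Manifold
open Set Filter Bundle Pool.Agent.Helper186 Pool.Agent.H826R2

noncomputable section

namespace Pool.Agent.H904.SF

open Pool.Agent.N287.WF (DW Fl2 act)
open Pool.Agent.N75.WF (mfderiv_act)

universe u u' v v' w

variable {E : Type u} [NormedAddCommGroup E] [NormedSpace ℝ E] [FiniteDimensional ℝ E]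
  {M : Type v} [TopologicalSpace M] [ChartedSpace E M] [IsManifold 𝓘(ℝ, E) ∞ M]
  {E' : Type u'} [NormedAddCommGroup E'] [NormedSpace ℝ E'] [FiniteDimensional ℝ E']
  {P : Type v'} [TopologicalSpace P] [ChartedSpace E' P] [IsManifold 𝓘(ℝ, E') ∞ P]
  {W : Type w} [NormedAddCommGroup W] [InnerProductSpace ℝ W] [FiniteDimensional ℝ W]

/-- A family of invariant surfaces: `P` is fibred by the level sets of `f`, which are surfaces tangent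
to the lift `RP` of the field `R`; the field `Z` spans with `RP` their tangent spaces. -/
structure Fam (β : (x : M) → TangentSpace 𝓘(ℝ, E) x →L[ℝ] ℝ)
    (R : (x : M) → TangentSpace 𝓘(ℝ, E) x) (q : P → M) (RP Z : (p : P) → TangentSpace 𝓘(ℝ, E') p)
    (f : P → W) : Prop where
  cd : GD β R
  smoothq : ContMDiff 𝓘(ℝ, E') 𝓘(ℝ, E) ∞ q
  smoothRP : ContMDiff 𝓘(ℝ, E') 𝓘(ℝ, E').tangent ∞
    (fun p => (⟨p, RP p⟩ : TangentBundle 𝓘(ℝ, E') P))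
  lift : ∀ p, (mfderiv 𝓘(ℝ, E') 𝓘(ℝ, E) q p (RP p) : E) = R (q p)
  smoothf : ContMDiff 𝓘(ℝ, E') 𝓘(ℝ, W) ∞ f
  smoothZ : ContMDiff 𝓘(ℝ, E') 𝓘(ℝ, E').tangent ∞
    (fun p => (⟨p, Z p⟩ : TangentBundle 𝓘(ℝ, E') P))
  ker : ∀ (p : P) (u : TangentSpace 𝓘(ℝ, E') p),
    DW f p u = 0 ↔ ∃ s t : ℝ, u = s • RP p + t • Z p
  nd : ∀ p : P, ∃ v : TangentSpace 𝓘(ℝ, E') p, extDer 𝓘(ℝ, E) β (q p)
    (mfderiv 𝓘(ℝ, E') 𝓘(ℝ, E) q p (Z p)) (mfderiv 𝓘(ℝ, E') 𝓘(ℝ, E) q p v) ≠ 0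

variable {β : (x : M) → TangentSpace 𝓘(ℝ, E) x →L[ℝ] ℝ}
  {R : (x : M) → TangentSpace 𝓘(ℝ, E) x} {q : P → M} {RP Z : (p : P) → TangentSpace 𝓘(ℝ, E') p}
  {f : P → W}

lemma Fam.gd (h : Fam β R q RP Z f) : GD (pullForm 𝓘(ℝ, E) 𝓘(ℝ, E') q β) RP where
  smooth := smoothForm_pull h.smoothq h.cd.smooth
  smoothR := h.smoothRP
  unit := fun p => by
    have h2 := h.cd.unit (q p)
    have h3 : β (q p) (mfderiv 𝓘(ℝ, E') 𝓘(ℝ, E) q p (RP p)) = β (q p) (R (q p)) :=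
      congrArg (fun u : E => β (q p) u) (h.lift p)
    exact h3.trans h2
  kernel := fun p v => by
    have h0 := extDer_pull (J := 𝓘(ℝ, E')) h.smoothq h.cd.smooth p (RP p) v
    have h2 := h.cd.kernel (q p) (mfderiv 𝓘(ℝ, E') 𝓘(ℝ, E) q p v)
    have h3 : extDer 𝓘(ℝ, E) β (q p) (mfderiv 𝓘(ℝ, E') 𝓘(ℝ, E) q p (RP p))
        (mfderiv 𝓘(ℝ, E') 𝓘(ℝ, E) q p v) =
        extDer 𝓘(ℝ, E) β (q p) (R (q p)) (mfderiv 𝓘(ℝ, E') 𝓘(ℝ, E) q p v) :=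
      congrArg (fun u : E => extDer 𝓘(ℝ, E) β (q p) u (mfderiv 𝓘(ℝ, E') 𝓘(ℝ, E) q p v))
        (h.lift p)
    exact h0.trans (h3.trans h2)

lemma Fam.fib (h : Fam β R q RP Z f) : Fib (pullForm 𝓘(ℝ, E) 𝓘(ℝ, E') q β) RP f Z where
  cd := h.gd
  smoothf := h.smoothf
  smoothZ := h.smoothZ
  ker := h.ker
  nd := fun p => by
    obtain ⟨v, hv⟩ := h.nd p
    refine ⟨v, ?_⟩
    rw [extDer_pull (J := 𝓘(ℝ, E')) h.smoothq h.cd.smooth p (Z p) v]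
    exact hv

section

variable {Y : (p : P) → TangentSpace 𝓘(ℝ, E') p} {a : P → W} {φ ψ : P → ℝ → P}

/-- the map of the plane to `M` -/
def GM (q : P → M) (φ ψ : P → ℝ → P) (x : P) (γ : ℝ × ℝ) : M := q (act φ ψ γ x)

lemma GM_smooth (h : Fam β R q RP Z f)
    (hsm : ContMDiff (𝓘(ℝ, ℝ × ℝ).prod 𝓘(ℝ, E')) 𝓘(ℝ, E') ∞
      (fun p : (ℝ × ℝ) × P => act φ ψ p.1 p.2)) (x : P) :
    ContMDiff 𝓘(ℝ, ℝ × ℝ) 𝓘(ℝ, E) ∞ (GM q φ ψ x) := by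
  have h1 : ContMDiff 𝓘(ℝ, ℝ × ℝ) 𝓘(ℝ, E') ∞ (fun s => act φ ψ s x) :=
    hsm.comp (contMDiff_id.prodMk contMDiff_const)
  exact h.smoothq.comp h1

/-- the derivative of `GM` is injective -/
lemma GM_inj (h : Fam β R q RP Z f) (N : Nrm (pullForm 𝓘(ℝ, E) 𝓘(ℝ, E') q β) RP f Y a)
    (hfl : Fl2 RP Y φ ψ) (hsm : ContMDiff (𝓘(ℝ, ℝ × ℝ).prod 𝓘(ℝ, E')) 𝓘(ℝ, E') ∞
      (fun p : (ℝ × ℝ) × P => act φ ψ p.1 p.2)) (x : P) (γ c : ℝ × ℝ)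
    (hc : (mfderiv 𝓘(ℝ, ℝ × ℝ) 𝓘(ℝ, E) (GM q φ ψ x) γ c : E) = 0) : c = 0 := by
  have h1 : ContMDiff 𝓘(ℝ, ℝ × ℝ) 𝓘(ℝ, E') ∞ (fun s => act φ ψ s x) :=
    hsm.comp (contMDiff_id.prodMk contMDiff_const)
  set y := act φ ψ γ x with hy
  have h2 := mfderiv_act hfl x γ (h1.mdifferentiableAt (by simp)) c.1 c.2
  have h3 : (mfderiv 𝓘(ℝ, ℝ × ℝ) 𝓘(ℝ, E) (GM q φ ψ x) γ c : E) =
      (mfderiv 𝓘(ℝ, E') 𝓘(ℝ, E) q y : E' →L[ℝ] E)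
        (mfderiv 𝓘(ℝ, ℝ × ℝ) 𝓘(ℝ, E') (fun s => act φ ψ s x) γ c : E') := by
    have h4 : mfderiv 𝓘(ℝ, ℝ × ℝ) 𝓘(ℝ, E) (q ∘ fun s => act φ ψ s x) γ =
        (mfderiv 𝓘(ℝ, E') 𝓘(ℝ, E) q (act φ ψ γ x)).comp
        (mfderiv 𝓘(ℝ, ℝ × ℝ) 𝓘(ℝ, E') (fun s => act φ ψ s x) γ) :=
      mfderiv_comp _ (h.smoothq.mdifferentiableAt (by simp)) (h1.mdifferentiableAt (by simp))
    exact DFunLike.congr_fun h4 c
  have h4 : (mfderiv 𝓘(ℝ, E') 𝓘(ℝ, E) q y : E' →L[ℝ] E)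
      (c.1 • (RP y : E') + c.2 • (Y y : E')) = 0 := by
    have h5 : (mfderiv 𝓘(ℝ, ℝ × ℝ) 𝓘(ℝ, E') (fun s => act φ ψ s x) γ c : E') =
      c.1 • (RP y : E') + c.2 • (Y y : E') := h2
    rw [← h5, ← h3]
    exact hc
  -- the first coordinate
  have e1 : c.1 = 0 := by
    have h5 : pullForm 𝓘(ℝ, E) 𝓘(ℝ, E') q β y (c.1 • RP y + c.2 • Y y) = 0 := by
      have h6 := congrArg (fun u : E => (β (q y) : E →L[ℝ] ℝ) u) h4
      exact h6.trans (map_zero (β (q y) : E →L[ℝ] ℝ))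
    rw [map_add, map_smul, map_smul, N.cd.unit, N.kerβ] at h5
    simpa using h5
  -- the second coordinate
  have e2 : c.2 = 0 := by
    obtain ⟨u, hu⟩ := N.mem y
    have h5 := N.theta y u
    rw [hu, real_inner_self_eq_norm_sq, N.unit,
      extDer_pull (J := 𝓘(ℝ, E')) h.smoothq h.cd.smooth y (Y y) u] at h5
    have h6 : c.2 • (mfderiv 𝓘(ℝ, E') 𝓘(ℝ, E) q y : E' →L[ℝ] E) (Y y : E') = 0 := by
      rw [e1, zero_smul, zero_add] at h4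
      exact (map_smul (mfderiv 𝓘(ℝ, E') 𝓘(ℝ, E) q y : E' →L[ℝ] E) c.2 (Y y : E')).symm.trans h4
    rcases smul_eq_zero.1 h6 with h7 | h7
    · exact h7
    · exfalso
      have h8 : extDerL 𝓘(ℝ, E) β (q y) (mfderiv 𝓘(ℝ, E') 𝓘(ℝ, E) q y (Y y))
          (mfderiv 𝓘(ℝ, E') 𝓘(ℝ, E) q y u) = 0 := by
        have h9 : (mfderiv 𝓘(ℝ, E') 𝓘(ℝ, E) q y (Y y) : TangentSpace 𝓘(ℝ, E) (q y)) = 0 := h7
        rw [h9, map_zero]
        rfl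
      rw [extDerL_apply] at h8
      rw [h8] at h5
      norm_num at h5
  exact Prod.ext e1 e2

/-- `GM` is locally injective -/
lemma GM_locinj (h : Fam β R q RP Z f) (N : Nrm (pullForm 𝓘(ℝ, E) 𝓘(ℝ, E') q β) RP f Y a)
    (hfl : Fl2 RP Y φ ψ) (hsm : ContMDiff (𝓘(ℝ, ℝ × ℝ).prod 𝓘(ℝ, E')) 𝓘(ℝ, E') ∞
      (fun p : (ℝ × ℝ) × P => act φ ψ p.1 p.2)) (x : P) (γ : ℝ × ℝ) :
    ∃ O : Set (ℝ × ℝ), IsOpen O ∧ γ ∈ O ∧ InjOn (GM q φ ψ x) O := by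
  have hG := GM_smooth h hsm x
  set z := GM q φ ψ x γ with hz
  have hd : HasFDerivAt (fun c => chartAt E z (GM q φ ψ x c))
      (mfderiv 𝓘(ℝ, ℝ × ℝ) 𝓘(ℝ, E) (GM q φ ψ x) γ : (ℝ × ℝ) →L[ℝ] E) γ := by
    have h1 := ((hG γ).mdifferentiableAt (by simp)).hasMFDerivAt.2
    simp only [writtenInExtChartAt, Function.comp_def, chartAt_self_eq, mfld_simps] at h1
    exact hasFDerivWithinAt_univ.1 h1
  have hs : ContDiffAt ℝ ∞ (fun c => chartAt E z (GM q φ ψ x c)) γ := by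
    rw [← contMDiffAt_iff_contDiffAt]
    have h1 : ContMDiffAt 𝓘(ℝ, E) 𝓘(ℝ, E) ∞ (chartAt E z) (GM q φ ψ x γ) :=
      (contMDiffOn_chart (I := 𝓘(ℝ, E)) (x := z)).contMDiffAt
        ((chartAt E z).open_source.mem_nhds (mem_chart_source E z))
    exact h1.comp γ (hG γ)
  have hst : HasStrictFDerivAt (fun c => chartAt E z (GM q φ ψ x c))
      (mfderiv 𝓘(ℝ, ℝ × ℝ) 𝓘(ℝ, E) (GM q φ ψ x) γ : (ℝ × ℝ) →L[ℝ] E) γ :=
    hs.hasStrictFDerivAt' hd (by simp)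
  obtain ⟨O, hO, hγ, hinj⟩ := Pool.Agent.N488.WF.locinj _ _ γ hst
    (fun c hc => GM_inj h N hfl hsm x γ c hc)
  refine ⟨O, hO, hγ, fun c hc d hd hcd => hinj hc hd ?_⟩
  show chartAt E z (GM q φ ψ x c) = chartAt E z (GM q φ ψ x d)
  rw [hcd]

/-- the curves of the family are integral curves of `R` -/
lemma GM_int (h : Fam β R q RP Z f) (hfl : Fl2 RP Y φ ψ) (x : P) (s : ℝ) :
    IsMIntegralCurve (I := 𝓘(ℝ, E)) (fun t => GM q φ ψ x (t, s)) R := by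
  intro t
  have h2 := HasMFDerivAt.comp t (g := q) (f := φ (ψ x s))
    ((h.smoothq _).mdifferentiableAt (by simp)).hasMFDerivAt (hfl.φint (ψ x s) t)
  refine h2.congr_mfderiv ?_
  refine ContinuousLinearMap.ext fun (r : ℝ) => ?_
  have h3 := h.lift (φ (ψ x s) t)
  show (mfderiv 𝓘(ℝ, E') 𝓘(ℝ, E) q (φ (ψ x s) t) : E' →L[ℝ] E) (r • (RP (φ (ψ x s) t) : E')) =
    r • (R (q (φ (ψ x s) t)) : E)
  rw [map_smul]
  exact congrArg (fun w : E => r • w) h3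

end

end Pool.Agent.H904.SF
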