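import Pool.Agent.H904.SF.Stm
import Pool.Graph.R_pool_sql_team_seeded_63374d34.N284.WF.M1a

/-! # The normalised field (after library module N284/WF/M1a) -/

open scoped Topology ContDiff Manifold
open Set Filter Bundle Pool.Agent.Helper186 Pool.Agent.H826R2

noncomputable section

set_option linter.unusedSectionVars false

namespace Pool.Agent.H904.SF

open Pool.Agent.N287.WF (DW)
open Pool.Agent.N284.WF (smooth_DW Z1 GG GG_apply smoothBilin_GG exists_rep)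

universe u v w

variable {E : Type u} [NormedAddCommGroup E] [NormedSpace ℝ E] [FiniteDimensional ℝ E]
  {M : Type v} [TopologicalSpace M] [ChartedSpace E M] [IsManifold 𝓘(ℝ, E) ∞ M]
  {W : Type w} [NormedAddCommGroup W] [InnerProductSpace ℝ W] [FiniteDimensional ℝ W]

/-- the normalised field exists -/
theorem nrm_aux [T2Space M] [CompactSpace M]
    (β : (x : M) → TangentSpace 𝓘(ℝ, E) x →L[ℝ] ℝ) (R : (x : M) → TangentSpace 𝓘(ℝ, E) x)
    (f : M → W) (Z : (x : M) → TangentSpace 𝓘(ℝ, E) x) (h : Fib β R f Z) :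
    ∃ (Y : (x : M) → TangentSpace 𝓘(ℝ, E) x) (a : M → W), Nrm β R f Y a := by
  obtain ⟨n, e, he, -, hinj⟩ := exists_embedding_euclidean_of_compact (I := 𝓘(ℝ, E)) (M := M)
  let ι : Wein.Imm (E := E) M n := ⟨e, he, hinj⟩
  have hβ := h.cd.smooth
  -- the field `Z1`
  set Z' := Z1 β R Z with hZ'
  have sZ' : ContMDiff 𝓘(ℝ, E) 𝓘(ℝ, E).tangent ∞
      (fun x => (⟨x, Z' x⟩ : TangentBundle 𝓘(ℝ, E) M)) := by
    intro x
    have h1 : ContMDiffAt 𝓘(ℝ, E) 𝓘(ℝ, ℝ) ∞ (fun p => β p (Z p)) x :=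
      hβ.comp (h.smoothZ x) le_rfl
    exact contMDiffAt_add_along (f := fun x : M => x) (h.smoothZ x)
      (contMDiffAt_smul_along (f := fun x : M => x) h1.neg (h.cd.smoothR x))
  have hβZ : ∀ x, β x (Z' x) = 0 := by
    intro x
    rw [hZ']
    unfold Z1
    rw [map_add, map_smul, h.cd.unit, smul_eq_mul, mul_one, add_neg_cancel]
  have hZv : ∀ x v, Helper186.extDer 𝓘(ℝ, E) β x (Z' x) v =
      Helper186.extDer 𝓘(ℝ, E) β x (Z x) v := by
    intro x v
    rw [hZ']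
    unfold Z1
    rw [← extDerL_apply, ← extDerL_apply, map_add, map_smul]
    show extDerL 𝓘(ℝ, E) β x (Z x) v + (-(β x (Z x))) * extDerL 𝓘(ℝ, E) β x (R x) v = _
    rw [extDerL_apply β x (R x) v, h.cd.kernel, mul_zero, add_zero]
  have hZ0 : ∀ x, Z' x ≠ 0 := by
    intro x hx
    obtain ⟨v, hv⟩ := h.nd x
    apply hv
    rw [← hZv, hx, ← extDerL_apply, map_zero]
    rfl
  have hker : ∀ (x : M) (u : TangentSpace 𝓘(ℝ, E) x),
      DW f x u = 0 ↔ ∃ p q : ℝ, u = p • R x + q • Z' x := by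
    intro x u
    rw [h.ker x u]
    constructor
    · rintro ⟨p, q, rfl⟩
      refine ⟨p + q * β x (Z x), q, ?_⟩
      rw [hZ']
      unfold Z1
      module
    · rintro ⟨p, q, rfl⟩
      refine ⟨p - q * β x (Z x), q, ?_⟩
      rw [hZ']
      unfold Z1
      module
  have hDR : ∀ x, DW f x (R x) = 0 := fun x => (hker x _).2 ⟨1, 0, by
    rw [one_smul, zero_smul, add_zero]⟩
  have hDZ : ∀ x, DW f x (Z' x) = 0 := fun x => (hker x _).2 ⟨0, 1, by
    rw [one_smul, zero_smul, zero_add]⟩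
  -- the form `ζ`
  let ζ : (x : M) → TangentSpace 𝓘(ℝ, E) x →L[ℝ] ℝ := fun x => ι.B x (Z' x)
  have hζ : ∀ (x : M) (v : (p : M) → TangentSpace 𝓘(ℝ, E) p),
      ContMDiffAt 𝓘(ℝ, E) 𝓘(ℝ, E).tangent ∞
        (fun p => (⟨p, v p⟩ : TangentBundle 𝓘(ℝ, E) M)) x →
      ContMDiffAt 𝓘(ℝ, E) 𝓘(ℝ, ℝ) ∞ (fun p => ζ p (v p)) x :=
    fun x v hv => ι.smoothBilin x Z' v (sZ' x) hv
  have hζ0 : ∀ x, ζ x (Z' x) ≠ 0 := by
    intro x hx
    have h1 : inner ℝ (ι.D x (Z' x)) (ι.D x (Z' x)) = (0 : ℝ) := hx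
    rw [inner_self_eq_zero] at h1
    exact hZ0 x (ι.inj x (h1.trans (map_zero (ι.D x)).symm))
  have hnd : ∀ (x : M) (u : TangentSpace 𝓘(ℝ, E) x), (∀ v, GG f β ζ x u v = 0) → u = 0 := by
    intro x u hu
    have h1 := hu u
    rw [GG_apply, real_inner_self_eq_norm_sq] at h1
    have g1 := sq_nonneg ‖DW f x u‖
    have g2 := mul_self_nonneg (β x u)
    have g3 := mul_self_nonneg (ζ x u)
    have h2 : ‖DW f x u‖ = 0 := by
      have : ‖DW f x u‖ ^ 2 = 0 := by linarith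
      exact pow_eq_zero_iff two_ne_zero |>.1 this
    have h3 : β x u = 0 := mul_self_eq_zero.1 (by linarith)
    have h4 : ζ x u = 0 := mul_self_eq_zero.1 (by linarith)
    obtain ⟨p, q, hpq⟩ := (hker x u).1 (norm_eq_zero.1 h2)
    have h5 : p = 0 := by
      rw [hpq, map_add, map_smul, map_smul, h.cd.unit, hβZ, smul_zero, add_zero,
        smul_eq_mul, mul_one] at h3
      exact h3
    rw [hpq, h5, zero_smul, zero_add, map_smul, smul_eq_mul] at h4
    rcases mul_eq_zero.1 h4 with h6 | h6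
    · rw [hpq, h5, h6, zero_smul, zero_smul, add_zero]
    · exact absurd h6 (hζ0 x)
  -- the solution
  choose u hu using fun x : M => exists_rep (GG f β ζ x) (hnd x) (extDerL 𝓘(ℝ, E) β x (Z' x))
  have hu' : ∀ (x : M) (v : TangentSpace 𝓘(ℝ, E) x),
      inner ℝ (DW f x (u x)) (DW f x v) + β x (u x) * β x v + ζ x (u x) * ζ x v =
        extDer 𝓘(ℝ, E) β x (Z' x) v := by
    intro x v
    rw [← GG_apply, hu, extDerL_apply]
  have su : ContMDiff 𝓘(ℝ, E) 𝓘(ℝ, E).tangent ∞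
      (fun x => (⟨x, u x⟩ : TangentBundle 𝓘(ℝ, E) M)) := by
    intro x
    refine contMDiffAt_of_pairing (J := 𝓘(ℝ, E)) (f := fun x : M => x) contMDiffAt_id
      (smoothBilin_GG h.smoothf hβ hζ x) (hnd x) ?_
    intro v hv
    have h1 := smoothBilinAt_extDer hβ (f := fun y : M => y) (p₀ := x) contMDiffAt_id Z' v
      (sZ' x) hv
    refine h1.congr_of_eventuallyEq (Filter.Eventually.of_forall fun p => ?_)
    exact hu p (v p)
  have hζu : ∀ x, ζ x (u x) = 0 := by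
    intro x
    have h1 := hu' x (Z' x)
    have h2 : extDer 𝓘(ℝ, E) β x (Z' x) (Z' x) = 0 := by unfold extDer; ring
    rw [hDZ, inner_zero_right, hβZ, mul_zero, zero_add, zero_add, h2] at h1
    exact (mul_eq_zero.1 h1).resolve_right (hζ0 x)
  have hβu : ∀ x, β x (u x) = 0 := by
    intro x
    have h1 := hu' x (R x)
    rw [hDR, inner_zero_right, h.cd.unit, mul_one, zero_add, hζu, zero_mul, add_zero,
      Wein.extDer_antisymm, h.cd.kernel, neg_zero] at h1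
    exact h1
  have hθ : ∀ (x : M) (v : TangentSpace 𝓘(ℝ, E) x),
      extDer 𝓘(ℝ, E) β x (Z' x) v = inner ℝ (DW f x (u x)) (DW f x v) := by
    intro x v
    rw [← hu' x v, hβu, hζu]
    ring
  have hw0 : ∀ x, DW f x (u x) ≠ 0 := by
    intro x hx
    obtain ⟨v, hv⟩ := h.nd x
    apply hv
    rw [← hZv, hθ, hx, inner_zero_left]
  have hN : ∀ x, 0 < ‖DW f x (u x)‖ := fun x => norm_pos_iff.2 (hw0 x)
  have sw : ContMDiff 𝓘(ℝ, E) 𝓘(ℝ, W) ∞ (fun x => DW f x (u x)) :=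
    fun x => smooth_DW h.smoothf (su x)
  have sN : ContMDiff 𝓘(ℝ, E) 𝓘(ℝ, ℝ) ∞ (fun x => ‖DW f x (u x)‖⁻¹) := by
    intro x
    have h1 : ContDiffAt ℝ ∞ (fun w : W => ‖w‖⁻¹) (DW f x (u x)) :=
      (contDiffAt_norm ℝ (hw0 x)).inv (hN x).ne'
    exact ContMDiffAt.comp (g := fun w : W => ‖w‖⁻¹) (f := fun x => DW f x (u x)) x
      h1.contMDiffAt (sw x)
  refine ⟨fun x => ‖DW f x (u x)‖⁻¹ • Z' x, fun x => ‖DW f x (u x)‖⁻¹ • DW f x (u x), ?_⟩
  refine ⟨h.cd, h.smoothf, fun x => contMDiffAt_smul_along (f := fun x : M => x) (sN x) (sZ' x),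
    ?_, ?_, ?_, ?_, ?_, ?_, ?_⟩
  · intro x v
    rw [hker x v]
    constructor
    · rintro ⟨p, q, rfl⟩
      refine ⟨p, q * ‖DW f x (u x)‖, ?_⟩
      rw [smul_smul, mul_assoc, mul_inv_cancel₀ (hN x).ne', mul_one]
    · rintro ⟨p, q, rfl⟩
      exact ⟨p, q * ‖DW f x (u x)‖⁻¹, by rw [smul_smul]⟩
  · intro x
    rw [map_smul, hβZ, smul_zero]
  · intro x
    exact smul_ne_zero (inv_ne_zero (hN x).ne') (hZ0 x)
  · exact sN.continuous.smul sw.continuous
  · intro x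
    rw [norm_smul, norm_inv, norm_norm, inv_mul_cancel₀ (hN x).ne']
  · intro x
    exact ⟨‖DW f x (u x)‖⁻¹ • u x, by rw [map_smul]⟩
  · intro x v
    rw [inner_smul_left, ← hθ]
    have e1 : extDer 𝓘(ℝ, E) β x (‖DW f x (u x)‖⁻¹ • Z' x) v =
        extDerL 𝓘(ℝ, E) β x (‖DW f x (u x)‖⁻¹ • Z' x) v := rfl
    rw [e1, map_smul]
    rfl

end Pool.Agent.H904.SF
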