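import Mathlib
import Pool.Graph.R_pool_sql_team_seeded_63374d34.N287.WF.Asm

/-!
# Surface fibrations tangent to a geodesible field: the data

The one-form `β` is arbitrary (it need not be a contact form, the dimension may be even), `R` is a field
with `β(R) = 1`, `dβ(R, ·) = 0`.
-/

open scoped Topology ContDiff Manifold
open Set Filter Bundle Pool.Agent.Helper186 Pool.Agent.H826R2 Pool.Agent.N287.WF

noncomputable section

namespace Pool.Agent.H904.SF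

universe u v w

variable {E : Type u} [NormedAddCommGroup E] [NormedSpace ℝ E] [FiniteDimensional ℝ E]
  {M : Type v} [TopologicalSpace M] [ChartedSpace E M] [IsManifold 𝓘(ℝ, E) ∞ M]
  {W : Type w} [NormedAddCommGroup W] [InnerProductSpace ℝ W] [FiniteDimensional ℝ W]

/-- a geodesible field: `β(R) = 1`, `dβ(R, ·) = 0` -/
structure GD (β : (x : M) → TangentSpace 𝓘(ℝ, E) x →L[ℝ] ℝ)
    (R : (x : M) → TangentSpace 𝓘(ℝ, E) x) : Prop where
  smooth : Helper186.SmoothForm β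
  smoothR : ContMDiff 𝓘(ℝ, E) 𝓘(ℝ, E).tangent ∞
    (fun x => (⟨x, R x⟩ : TangentBundle 𝓘(ℝ, E) M))
  unit : ∀ x, β x (R x) = 1
  kernel : ∀ (x : M) (v : TangentSpace 𝓘(ℝ, E) x), Helper186.extDer 𝓘(ℝ, E) β x (R x) v = 0

/-- The kernel of the derivative of `f` is spanned by the fields `R` and `Z`, and `dβ(Z, ·)` has no
zero. -/
structure Fib (β : (x : M) → TangentSpace 𝓘(ℝ, E) x →L[ℝ] ℝ)
    (R : (x : M) → TangentSpace 𝓘(ℝ, E) x) (f : M → W) (Z : (x : M) → TangentSpace 𝓘(ℝ, E) x) :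
    Prop where
  cd : GD β R
  smoothf : ContMDiff 𝓘(ℝ, E) 𝓘(ℝ, W) ∞ f
  smoothZ : ContMDiff 𝓘(ℝ, E) 𝓘(ℝ, E).tangent ∞
    (fun x => (⟨x, Z x⟩ : TangentBundle 𝓘(ℝ, E) M))
  ker : ∀ (x : M) (u : TangentSpace 𝓘(ℝ, E) x),
    DW f x u = 0 ↔ ∃ p q : ℝ, u = p • R x + q • Z x
  nd : ∀ x : M, ∃ v : TangentSpace 𝓘(ℝ, E) x, Helper186.extDer 𝓘(ℝ, E) β x (Z x) v ≠ 0

/-- The normalised field `Y`: it spans, together with `R`, the kernel of the derivative of `f`, it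
lies in the kernel of `β`, and `dβ(Y, ·)` is the scalar product of the derivative of `f` with a unit
vector `a` (in the range of the derivative of `f`). -/
structure Nrm (β : (x : M) → TangentSpace 𝓘(ℝ, E) x →L[ℝ] ℝ)
    (R : (x : M) → TangentSpace 𝓘(ℝ, E) x) (f : M → W) (Y : (x : M) → TangentSpace 𝓘(ℝ, E) x)
    (a : M → W) : Prop where
  cd : GD β R
  smoothf : ContMDiff 𝓘(ℝ, E) 𝓘(ℝ, W) ∞ f
  smoothY : ContMDiff 𝓘(ℝ, E) 𝓘(ℝ, E).tangent ∞
    (fun x => (⟨x, Y x⟩ : TangentBundle 𝓘(ℝ, E) M))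
  ker : ∀ (x : M) (u : TangentSpace 𝓘(ℝ, E) x),
    DW f x u = 0 ↔ ∃ p q : ℝ, u = p • R x + q • Y x
  kerβ : ∀ x, β x (Y x) = 0
  ne : ∀ x, Y x ≠ 0
  conta : Continuous a
  unit : ∀ x, ‖a x‖ = 1
  mem : ∀ x, ∃ u : TangentSpace 𝓘(ℝ, E) x, DW f x u = a x
  theta : ∀ (x : M) (v : TangentSpace 𝓘(ℝ, E) x),
    Helper186.extDer 𝓘(ℝ, E) β x (Y x) v = inner ℝ (a x) (DW f x v)

end Pool.Agent.H904.SF
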